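import Pool.Agent.helper71.AA.B0

/-! # Project AA, module S1: structure of Selberg's sum -/

namespace Pool.Agent.helper71.AA

open Finset

lemma S1_split {M : Type*} [AddCommMonoid M] (Q A : Finset ℕ) (hA : A ⊆ Q) (f : Finset ℕ → M) :
    ∑ K ∈ Q.powerset, f K = ∑ K ∈ (Q \ A).powerset, ∑ H ∈ A.powerset, f (K ∪ H) := by
  rw [← sum_product']
  refine sum_nbij' (fun K => (K \ A, K ∩ A)) (fun x => x.1 ∪ x.2) ?_ ?_ ?_ ?_ ?_
  · intro K hK
    rw [mem_powerset] at hK
    rw [mem_product, mem_powerset, mem_powerset]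
    exact ⟨sdiff_subset_sdiff hK le_rfl, inter_subset_right⟩
  · rintro ⟨K, H⟩ h
    rw [mem_product, mem_powerset, mem_powerset] at h
    rw [mem_powerset]
    exact union_subset (h.1.trans sdiff_subset) (h.2.trans hA)
  · intro K _
    exact sdiff_union_inter K A
  · rintro ⟨K, H⟩ h
    rw [mem_product, mem_powerset, mem_powerset] at h
    have h1 : Disjoint K A := disjoint_of_subset_left h.1 sdiff_disjoint
    simp only [Prod.mk.injEq]
    constructor
    · rw [union_sdiff_distrib, sdiff_eq_empty_iff_subset.2 h.2, union_empty,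
        sdiff_eq_self_of_disjoint h1]
    · rw [union_inter_distrib_right, disjoint_iff_inter_eq_empty.1 h1, empty_union,
        inter_eq_left.2 h.2]
  · intro K _
    simp only
    rw [sdiff_union_inter K A]

lemma S1_pr_union (K H : Finset ℕ) (h : Disjoint K H) : pr (K ∪ H) = pr K * pr H := by
  unfold pr; exact prod_union h

lemma S1_ph_union (K H : Finset ℕ) (h : Disjoint K H) : ph (K ∪ H) = ph K * ph H := by
  unfold ph; exact prod_union h

lemma S1_pr_ge {K : Finset ℕ} (h : ∀ l ∈ K, 2 ≤ l) : 1 ≤ pr K := by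
  unfold pr
  have : ∀ l ∈ K, (1 : ℝ) ≤ (l : ℝ) := fun l hl => by
    have : (2 : ℝ) ≤ l := by exact_mod_cast h l hl
    linarith
  calc (1 : ℝ) = ∏ l ∈ K, (1 : ℝ) := by simp
    _ ≤ _ := prod_le_prod (fun _ _ => zero_le_one) this

lemma S1_pr_pos {K : Finset ℕ} (h : ∀ l ∈ K, 2 ≤ l) : 0 < pr K :=
  lt_of_lt_of_le one_pos (S1_pr_ge h)

lemma S1_ph_pos {K : Finset ℕ} (h : ∀ l ∈ K, 2 ≤ l) : 0 < ph K := by
  unfold ph
  refine prod_pos fun l hl => ?_
  have : (2 : ℝ) ≤ l := by exact_mod_cast h l hl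
  linarith

lemma S1_le_pr {K : Finset ℕ} (h : ∀ l ∈ K, 2 ≤ l) {l : ℕ} (hl : l ∈ K) : (l : ℝ) ≤ pr K := by
  have h1 : pr K = l * pr (K.erase l) := by
    unfold pr; exact (mul_prod_erase K (fun l => (l : ℝ)) hl).symm
  rw [h1]
  have h2 : 1 ≤ pr (K.erase l) := S1_pr_ge fun x hx => h x (mem_of_mem_erase hx)
  have h3 : (0 : ℝ) ≤ l := Nat.cast_nonneg l
  nlinarith

/-- the functions on `A` -/
lemma S1_ch (K H A : Finset ℕ) (hK : Disjoint K A) (hH : H ⊆ A) :
    ch (K ∪ H) A = (-1) ^ H.card * ph H := by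
  unfold ch
  rw [prod_union (disjoint_of_subset_right hH hK)]
  have h1 : ∏ l ∈ K, (if l ∈ A then 1 - (l : ℝ) else 1) = 1 := by
    apply prod_eq_one
    intro l hl
    rw [if_neg]
    exact fun h => (disjoint_left.1 hK hl) h
  have h2 : ∏ l ∈ H, (if l ∈ A then 1 - (l : ℝ) else 1) = (-1) ^ H.card * ph H := by
    unfold ph
    rw [← prod_const, ← prod_mul_distrib]
    refine prod_congr rfl fun l hl => ?_
    rw [if_pos (hH hl)]
    ring
  rw [h1, h2, one_mul]

lemma S1_mem_Sub {Q K : Finset ℕ} {x : ℝ} : K ∈ Sub Q x ↔ K ⊆ Q ∧ pr K ≤ x := by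
  unfold Sub
  rw [mem_filter, mem_powerset]

theorem Sg_struct (Q A : Finset ℕ) (hA : A ⊆ Q) (hQ : ∀ l ∈ Q, 2 ≤ l) (R : ℝ) :
    Sg Q R A = ∑ K ∈ Sub (Q \ A) R, 1 / ph K * Mb A (R / pr K) := by
  unfold Sg Sub Mb
  rw [sum_filter, S1_split Q A hA, sum_filter]
  refine sum_congr rfl fun K hK => ?_
  rw [mem_powerset] at hK
  have hd : Disjoint K A := disjoint_of_subset_left hK sdiff_disjoint
  have hK2 : ∀ l ∈ K, 2 ≤ l := fun l hl => hQ l (sdiff_subset (hK hl))
  have hpK := S1_pr_pos hK2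
  have hphK := S1_ph_pos hK2
  unfold Sub
  rw [sum_filter]
  have e1 : ∀ H ∈ A.powerset, (if pr (K ∪ H) ≤ R then ch (K ∪ H) A / ph (K ∪ H) else 0) =
      if pr H ≤ R / pr K then 1 / ph K * (-1) ^ H.card else 0 := by
    intro H hH
    rw [mem_powerset] at hH
    have hH2 : ∀ l ∈ H, 2 ≤ l := fun l hl => hQ l (hA (hH hl))
    have hphH := S1_ph_pos hH2
    rw [S1_pr_union K H (disjoint_of_subset_right hH hd),
      S1_ph_union K H (disjoint_of_subset_right hH hd), S1_ch K H A hd hH]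
    have h3 : pr K * pr H ≤ R ↔ pr H ≤ R / pr K := by
      rw [le_div_iff₀ hpK, mul_comm]
    simp only [h3]
    split_ifs
    · field_simp
    · rfl
  rw [sum_congr rfl e1]
  by_cases hR : pr K ≤ R
  · rw [if_pos hR, mul_sum]
    refine sum_congr rfl fun H _ => ?_
    split_ifs <;> simp
  · rw [if_neg hR]
    refine sum_eq_zero fun H hH => ?_
    rw [mem_powerset] at hH
    rw [if_neg]
    intro h
    have h4 : 1 ≤ pr H := S1_pr_ge fun l hl => hQ l (hA (hH hl))
    have h5 : R / pr K < 1 := by rw [div_lt_one hpK]; exact not_le.1 hR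
    linarith

lemma S1_Mb_abs (L : Finset ℕ) (x : ℝ) : |Mb L x| ≤ 2 ^ L.card := by
  unfold Mb
  calc |∑ H ∈ Sub L x, (-1 : ℝ) ^ H.card| ≤ ∑ H ∈ Sub L x, |(-1 : ℝ) ^ H.card| :=
        abs_sum_le_sum_abs _ _
    _ = ∑ H ∈ Sub L x, 1 := sum_congr rfl fun H _ => by simp
    _ = ((Sub L x).card : ℝ) := by simp
    _ ≤ ((L.powerset.card : ℕ) : ℝ) := by
        exact_mod_cast card_le_card (filter_subset _ _)
    _ = 2 ^ L.card := by rw [card_powerset]; push_cast; rfl

lemma S1_Gs_mono {Q Q' : Finset ℕ} (h : Q' ⊆ Q) (hQ : ∀ l ∈ Q, 2 ≤ l) (x : ℝ) :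
    Gs Q' x ≤ Gs Q x := by
  unfold Gs
  apply sum_le_sum_of_subset_of_nonneg
  · intro K hK
    rw [S1_mem_Sub] at hK ⊢
    exact ⟨hK.1.trans h, hK.2⟩
  · intro K hK _
    rw [S1_mem_Sub] at hK
    have := S1_ph_pos fun l hl => hQ l (hK.1 hl)
    positivity

theorem Sg_abs (Q A : Finset ℕ) (hA : A ⊆ Q) (hQ : ∀ l ∈ Q, 2 ≤ l) (R : ℝ) :
    |Sg Q R A| ≤ 2 ^ A.card * Gs Q R := by
  rw [Sg_struct Q A hA hQ R]
  calc |∑ K ∈ Sub (Q \ A) R, 1 / ph K * Mb A (R / pr K)|
      ≤ ∑ K ∈ Sub (Q \ A) R, |1 / ph K * Mb A (R / pr K)| := abs_sum_le_sum_abs _ _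
    _ ≤ ∑ K ∈ Sub (Q \ A) R, 1 / ph K * 2 ^ A.card := by
        refine sum_le_sum fun K hK => ?_
        rw [S1_mem_Sub] at hK
        have := S1_ph_pos fun l hl => hQ l (sdiff_subset (hK.1 hl))
        rw [abs_mul, abs_of_pos (by positivity : 0 < 1 / ph K)]
        exact mul_le_mul_of_nonneg_left (S1_Mb_abs _ _) (by positivity)
    _ = 2 ^ A.card * Gs (Q \ A) R := by
        unfold Gs
        rw [← sum_mul, mul_comm]
    _ ≤ 2 ^ A.card * Gs Q R := by
        exact mul_le_mul_of_nonneg_left (S1_Gs_mono sdiff_subset hQ R) (by positivity)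

theorem Sg_big (Q A : Finset ℕ) (_hA : A ⊆ Q) (hQ : ∀ l ∈ Q, 2 ≤ l) (R : ℝ)
    (h : ∀ l ∈ A, R < (l : ℝ)) : Sg Q R A = Gs Q R := by
  unfold Sg Gs
  refine sum_congr rfl fun K hK => ?_
  rw [S1_mem_Sub] at hK
  have h1 : ch K A = 1 := by
    unfold ch
    apply prod_eq_one
    intro l hl
    rw [if_neg]
    intro hlA
    have h2 := S1_le_pr (fun x hx => hQ x (hK.1 hx)) hl
    have h3 := h l hlA
    linarith [hK.2]
  rw [h1]

theorem Sg_one (Q A : Finset ℕ) (hA : A ⊆ Q) (hQ : ∀ l ∈ Q, 2 ≤ l) (R : ℝ) (g : ℕ) (hg : g ∈ A)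
    (h : ∀ l ∈ A.erase g, R < (l : ℝ)) :
    Sg Q R A = Gs (Q.erase g) R - Gs (Q.erase g) (R / g) := by
  have hgQ : g ∈ Q := hA hg
  have hg0 : (0 : ℝ) < g := by
    have := hQ g hgQ
    exact_mod_cast (by omega : 0 < g)
  have hA' : A.erase g ⊆ Q.erase g := erase_subset_erase g hA
  have hQ' : ∀ l ∈ Q.erase g, 2 ≤ l := fun l hl => hQ l (mem_of_mem_erase hl)
  -- split according to `g ∈ K`
  have hins : Q = insert g (Q.erase g) := (insert_erase hgQ).symm
  unfold Sg Sub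
  rw [sum_filter]
  conv_lhs => rw [hins]
  rw [sum_powerset_insert (notMem_erase g Q)]
  have key : ∀ K ⊆ Q.erase g, pr K ≤ R → ch K A = 1 := by
    intro K hK hR
    unfold ch
    apply prod_eq_one
    intro l hl
    rw [if_neg]
    intro hlA
    have hlg : l ≠ g := ne_of_mem_erase (hK hl)
    have h2 := S1_le_pr (fun x hx => hQ' x (hK hx)) hl
    have h3 := h l (mem_erase.2 ⟨hlg, hlA⟩)
    linarith
  have e1 : ∑ K ∈ (Q.erase g).powerset, (if pr K ≤ R then ch K A / ph K else 0) =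
      Gs (Q.erase g) R := by
    unfold Gs Sub
    rw [sum_filter]
    refine sum_congr rfl fun K hK => ?_
    rw [mem_powerset] at hK
    by_cases hR : pr K ≤ R
    · rw [if_pos hR, if_pos hR, key K hK hR]
    · rw [if_neg hR, if_neg hR]
  have e2 : ∑ K ∈ (Q.erase g).powerset,
      (if pr (insert g K) ≤ R then ch (insert g K) A / ph (insert g K) else 0) =
      - Gs (Q.erase g) (R / g) := by
    unfold Gs Sub
    rw [sum_filter, ← sum_neg_distrib]
    refine sum_congr rfl fun K hK => ?_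
    rw [mem_powerset] at hK
    have hgK : g ∉ K := fun hh => (notMem_erase g Q) (hK hh)
    have hK2 : ∀ l ∈ K, 2 ≤ l := fun x hx => hQ' x (hK hx)
    have h5 : pr (insert g K) = g * pr K := by unfold pr; exact prod_insert hgK
    have h6 : ph (insert g K) = (g - 1) * ph K := by unfold ph; exact prod_insert hgK
    have h7 : ch (insert g K) A = (1 - g) * ch K A := by
      unfold ch
      rw [prod_insert hgK, if_pos hg]
    have h8 : pr (insert g K) ≤ R ↔ pr K ≤ R / g := by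
      rw [h5, le_div_iff₀ hg0, mul_comm]
    by_cases hR : pr K ≤ R / g
    · rw [if_pos (h8.2 hR), if_pos hR, h6, h7]
      have h9 : pr K ≤ R := by
        have h10 := h8.2 hR
        rw [h5] at h10
        have h11 := S1_pr_pos hK2
        have h12 : (2 : ℝ) ≤ g := by exact_mod_cast hQ g hgQ
        nlinarith
      rw [key K hK h9]
      have h13 := S1_ph_pos hK2
      have h14 : (g : ℝ) - 1 ≠ 0 := by
        have h12 : (2 : ℝ) ≤ g := by exact_mod_cast hQ g hgQ
        linarith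
      field_simp
      ring
    · rw [if_neg (fun hh => hR (h8.1 hh)), if_neg hR, neg_zero]
  rw [e1, e2]
  ring

end Pool.Agent.helper71.AA
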