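import Pool.Agent.helper71.AA.L1

/-! # Project AA, module K4: concentration -/

namespace Pool.Agent.helper71.AA

open Finset Filter

theorem K4_gt {w b : ℕ} {P : ℝ} (hb : b.Coprime (primorial w)) {p : ℕ}
    (hp : p ∈ Ps (primorial w) b P) : w < p := by
  unfold Ps at hp
  rw [mem_filter] at hp
  obtain ⟨_, hpp, hpb⟩ := hp
  by_contra h
  push Not at h
  have hdvd : p ∣ primorial w := by
    refine Finset.dvd_prod_of_mem (fun p => p) (Finset.mem_filter.2 ⟨?_, hpp⟩)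
    exact Finset.mem_range.2 (by omega)
  have h1 : p ∣ b := by
    have h2 : p ≡ b [MOD p] := hpb.of_dvd hdvd
    have h3 : 0 ≡ b [MOD p] := by
      have : p ≡ 0 [MOD p] := by simp [Nat.ModEq]
      exact this.symm.trans h2
    exact (Nat.modEq_zero_iff_dvd).1 h3.symm
  have h4 : p ∣ Nat.gcd b (primorial w) := Nat.dvd_gcd h1 hdvd
  rw [hb] at h4
  exact hpp.one_lt.ne' (Nat.dvd_one.1 h4)

theorem K4_prime {W b : ℕ} {P : ℝ} {p : ℕ} (hp : p ∈ Ps W b P) : p.Prime := by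
  unfold Ps at hp
  rw [mem_filter] at hp
  exact hp.2.1

/-- number of coefficients -/
theorem K4_card (W a₀ : ℕ) (hW : 0 < W) (X : ℝ) (hX : 0 ≤ X) :
    (((As W a₀ X).card : ℕ) : ℝ) ≤ X / W + 1 := by
  have hWr : (0 : ℝ) < W := by exact_mod_cast hW
  have h1 : (As W a₀ X).card ≤ ⌊X⌋₊ / W + 1 := by
    unfold As
    have hinj : Set.InjOn (fun a : ℕ => (a - 1) / W)
        ((Icc 1 ⌊X⌋₊).filter (fun a => a ≡ a₀ [MOD W])) := by
      intro x hx y hy hxy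
      rw [mem_coe, mem_filter, mem_Icc] at hx hy
      have hxy' : (x - 1) / W = (y - 1) / W := hxy
      have hm : x ≡ y [MOD W] := hx.2.trans hy.2.symm
      have hx1 := Nat.div_add_mod (x - 1) W
      have hy1 := Nat.div_add_mod (y - 1) W
      have hm2 : (x - 1) ≡ (y - 1) [MOD W] := by
        have : (x - 1) + 1 ≡ (y - 1) + 1 [MOD W] := by
          rw [Nat.sub_add_cancel hx.1.1, Nat.sub_add_cancel hy.1.1]; exact hm
        exact Nat.ModEq.add_right_cancel' 1 this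
      have hm3 : (x - 1) % W = (y - 1) % W := hm2
      have : x - 1 = y - 1 := by
        rw [← hx1, ← hy1, hxy', hm3]
      omega
    have hmap : ∀ a ∈ (Icc 1 ⌊X⌋₊).filter (fun a => a ≡ a₀ [MOD W]),
        (a - 1) / W ∈ range (⌊X⌋₊ / W + 1) := by
      intro a ha
      rw [mem_filter, mem_Icc] at ha
      rw [mem_range]
      have : (a - 1) / W ≤ ⌊X⌋₊ / W := Nat.div_le_div_right (by omega)
      omega
    calc _ ≤ (range (⌊X⌋₊ / W + 1)).card := card_le_card_of_injOn _ hmap hinj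
      _ = _ := card_range _
  calc (((As W a₀ X).card : ℕ) : ℝ) ≤ ((⌊X⌋₊ / W + 1 : ℕ) : ℝ) := by exact_mod_cast h1
    _ = ((⌊X⌋₊ / W : ℕ) : ℝ) + 1 := by push_cast; ring
    _ ≤ (⌊X⌋₊ : ℝ) / W + 1 := by
        have := @Nat.cast_div_le ℝ _ _ _ ⌊X⌋₊ W
        linarith
    _ ≤ X / W + 1 := by
        have h2 : (⌊X⌋₊ : ℝ) ≤ X := Nat.floor_le hX
        have h3 : (⌊X⌋₊ : ℝ) / W ≤ X / W := div_le_div_of_nonneg_right h2 hWr.le
        linarith

theorem conc_of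
    (hoff : ∀ (δ ε : ℝ) (_ : 0 < δ) (_ : 0 < ε), ∃ w₀ : ℕ, ∀ w : ℕ, w₀ ≤ w →
      ∃ C X₀ : ℝ, 0 < C ∧ ∀ X P : ℝ, X₀ ≤ X → Rg C X P → ∀ a₀ b : ℕ, b.Coprime (primorial w) →
      ∀ (R c : ℝ) (v : ℕ → ℝ), Adm X δ R c v →
        ∑ p ∈ Ps (primorial w) b P, ∑ q ∈ (Ps (primorial w) b P).erase p,
          ∑ a ∈ As (primorial w) a₀ X, fw w X R c v p a * fw w X R c v q a ≤
        X / (primorial w : ℝ) * ((∑ p ∈ Ps (primorial w) b P, mw w X R c v p) ^ 2 +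
          ε * (((Ps (primorial w) b P).card : ℝ) * (Aw w * Real.log X)) ^ 2))
    (hdiag : ∀ (δ η ε : ℝ) (_ : 0 < δ) (_ : 0 < η) (_ : 0 < ε) (w : ℕ) (_ : 10 ≤ w),
      ∃ C X₀ : ℝ, 0 < C ∧ ∀ X P : ℝ, X₀ ≤ X → Rg C X P → ∀ a₀ b : ℕ, b.Coprime (primorial w) →
      ∀ (R c : ℝ) (v : ℕ → ℝ), Adm X δ R c v →
        ∑ p ∈ Ps (primorial w) b P, ∑ a ∈ As (primorial w) a₀ X, ft w X η R c v p a ^ 2 ≤
          ε * (X / (primorial w : ℝ)) *
            (((Ps (primorial w) b P).card : ℝ) * (Aw w * Real.log X)) ^ 2)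
    (hui : ∀ (δ ε : ℝ) (_ : 0 < δ) (_ : 0 < ε), ∃ η : ℝ, 0 < η ∧ η ≤ δ ∧ η ≤ 1 / 10 ∧
      ∀ w : ℕ, 10 ≤ w → ∃ X₀ : ℝ, ∀ X P : ℝ, X₀ ≤ X → P ≤ X ^ (0.001 : ℝ) → ∀ a₀ b : ℕ,
      ∀ (R c : ℝ) (v : ℕ → ℝ), Adm X δ R c v → ∀ p ∈ Ps (primorial w) b P, w < p →
        ∑ a ∈ As (primorial w) a₀ X, (fw w X R c v p a - ft w X η R c v p a) ≤
          ε * (X / (primorial w : ℝ)) * (Aw w * Real.log X))
    (hmean : ∀ (δ ε : ℝ) (_ : 0 < δ) (_ : 0 < ε) (w : ℕ) (_ : 10 ≤ w), ∃ X₀ : ℝ,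
      ∀ X : ℝ, X₀ ≤ X → ∀ a₀ : ℕ, ∀ (R c : ℝ) (v : ℕ → ℝ), Adm X δ R c v → ∀ p : ℕ, p.Prime →
        |∑ a ∈ As (primorial w) a₀ X, fw w X R c v p a -
          X / (primorial w : ℝ) * mw w X R c v p| ≤ ε * (X / (primorial w : ℝ)))
    (hmw : ∀ (δ : ℝ) (_ : 0 < δ), ∃ B : ℝ, 0 < B ∧ ∀ w : ℕ, 10 ≤ w → ∃ X₀ : ℝ,
      ∀ X : ℝ, X₀ ≤ X → ∀ (R c : ℝ) (v : ℕ → ℝ), Adm X δ R c v → ∀ p : ℕ,
        0 ≤ mw w X R c v p ∧ mw w X R c v p ≤ B * (Aw w * Real.log X))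
    (δ ε : ℝ) (hδ : 0 < δ) (hε : 0 < ε) : ∃ η : ℝ, 0 < η ∧ η ≤ δ ∧ η ≤ 1 / 10 ∧
    ∃ w₀ : ℕ, ∀ w : ℕ, w₀ ≤ w → ∃ C X₀ : ℝ, 0 < C ∧ ∀ X P : ℝ, X₀ ≤ X → Rg C X P →
    ∀ a₀ b : ℕ, b.Coprime (primorial w) → ∀ (R c : ℝ) (v : ℕ → ℝ), Adm X δ R c v →
      ∑ a ∈ As (primorial w) a₀ X, (∑ p ∈ Ps (primorial w) b P, ft w X η R c v p a -
        ∑ p ∈ Ps (primorial w) b P, mw w X R c v p) ^ 2 ≤
      ε * (X / (primorial w : ℝ)) *
          (((Ps (primorial w) b P).card : ℝ) * (Aw w * Real.log X)) ^ 2 := by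
  obtain ⟨B, hB, hmw'⟩ := hmw δ hδ
  obtain ⟨η, hη0, hηδ, hη1, hui'⟩ := hui δ (ε / (16 * B)) hδ (by positivity)
  refine ⟨η, hη0, hηδ, hη1, ?_⟩
  obtain ⟨w₁, hoff'⟩ := hoff δ (ε / 4) hδ (by positivity)
  refine ⟨max w₁ 10, ?_⟩
  intro w hw
  have hw1 : w₁ ≤ w := (le_max_left _ _).trans hw
  have hw10 : 10 ≤ w := (le_max_right _ _).trans hw
  obtain ⟨C₁, X₁, hC₁, hoff2⟩ := hoff' w hw1
  obtain ⟨C₂, X₂, hC₂, hdiag2⟩ := hdiag δ η (ε / 4) hδ hη0 (by positivity) w hw10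
  obtain ⟨X₃, hui2⟩ := hui' w hw10
  obtain ⟨X₄, hmean2⟩ := hmean δ (ε / (16 * B)) hδ (by positivity) w hw10
  obtain ⟨X₅, hmw2⟩ := hmw' w hw10
  have hA := L1_Aw_pos w
  have hWn : 0 < primorial w := primorial_pos w
  have hWr : (0 : ℝ) < (primorial w : ℝ) := by exact_mod_cast hWn
  have e1 : ∀ᶠ X : ℝ in atTop, 1 / Aw w ≤ Real.log X :=
    Real.tendsto_log_atTop.eventually_ge_atTop _
  have e0 : ∀ᶠ X : ℝ in atTop, 1 ≤ Real.log (Real.log X) :=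
    (Real.tendsto_log_atTop.comp Real.tendsto_log_atTop).eventually_ge_atTop 1
  have e2 : ∀ᶠ X : ℝ in atTop, 4 * B ^ 2 * (primorial w : ℝ) / ε ≤ X := eventually_ge_atTop _
  have e3 : ∀ᶠ X : ℝ in atTop, 1 ≤ X := eventually_ge_atTop 1
  obtain ⟨X₆, hX₆⟩ := eventually_atTop.1 (e1.and (e2.and (e3.and e0)))
  refine ⟨max C₁ C₂, max (max (max X₁ X₂) (max X₃ X₄)) (max X₅ X₆), by positivity, ?_⟩
  intro X P hX hRg a₀ b hb R c v hAdm
  have hXX₁ : X₁ ≤ X := ((le_max_left _ _).trans ((le_max_left _ _).trans (le_max_left _ _))).trans hX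
  have hXX₂ : X₂ ≤ X := ((le_max_right _ _).trans ((le_max_left _ _).trans (le_max_left _ _))).trans hX
  have hXX₃ : X₃ ≤ X := ((le_max_left _ _).trans ((le_max_right _ _).trans (le_max_left _ _))).trans hX
  have hXX₄ : X₄ ≤ X := ((le_max_right _ _).trans ((le_max_right _ _).trans (le_max_left _ _))).trans hX
  have hXX₅ : X₅ ≤ X := ((le_max_left _ _).trans (le_max_right _ _)).trans hX
  have hXX₆ : X₆ ≤ X := ((le_max_right _ _).trans (le_max_right _ _)).trans hX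
  obtain ⟨hl1, hl2, hX1, hll⟩ := hX₆ X hXX₆
  have hXpos : 0 < X := by linarith
  have hlogX : 0 < Real.log X := lt_of_lt_of_le (by positivity) hl1
  have hlam1 : 1 ≤ Aw w * Real.log X := by
    rw [div_le_iff₀ hA] at hl1
    linarith
  set Lam := Aw w * Real.log X with hLam
  have hLam0 : 0 < Lam := by linarith
  have hmonoRg : ∀ C' : ℝ, C' ≤ max C₁ C₂ → Rg C' X P := by
    intro C' hC'
    refine ⟨le_trans ?_ hRg.1, hRg.2⟩
    have h0 : 0 ≤ Real.log X * Real.log (Real.log X) := by positivity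
    nlinarith
  set Pset := Ps (primorial w) b P with hPset
  set Aset := As (primorial w) a₀ X with hAset
  set N : ℝ := (Pset.card : ℝ) * Lam with hN
  have hN0 : 0 ≤ N := by positivity
  set M : ℝ := ∑ p ∈ Pset, mw w X R c v p with hM
  have hM0 : 0 ≤ M := sum_nonneg fun p _ => (hmw2 X hXX₅ R c v hAdm p).1
  have hMB : M ≤ B * N := by
    calc M ≤ ∑ p ∈ Pset, B * Lam := sum_le_sum fun p _ => (hmw2 X hXX₅ R c v hAdm p).2
      _ = B * N := by rw [sum_const, nsmul_eq_mul, hN]; ring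
  set Y : ℝ := X / (primorial w : ℝ) with hY
  have hY0 : 0 < Y := by positivity
  have ho := hoff2 X P hXX₁ (hmonoRg C₁ (le_max_left _ _)) a₀ b hb R c v hAdm
  have hd := hdiag2 X P hXX₂ (hmonoRg C₂ (le_max_right _ _)) a₀ b hb R c v hAdm
  -- the weights
  have hc0 : 0 ≤ c := hAdm.2.2.1
  have hv0 : ∀ l, 0 ≤ v l := fun l => (hAdm.2.2.2.2.1 l).1
  have hfw0 : ∀ p a, 0 ≤ fw w X R c v p a := by
    intro p a
    unfold fw
    exact L1_Ff_nonneg _ _ _ hc0 _ hv0 _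
  have hft0 : ∀ p a, 0 ≤ ft w X η R c v p a := by
    intro p a
    unfold ft
    split_ifs
    · exact hfw0 p a
    · exact le_rfl
  have hftfw : ∀ p a, ft w X η R c v p a ≤ fw w X R c v p a := by
    intro p a
    unfold ft
    split_ifs
    · exact le_rfl
    · exact hfw0 p a
  -- second moment
  have hsq : ∑ a ∈ Aset, (∑ p ∈ Pset, ft w X η R c v p a) ^ 2 ≤
      Y * (M ^ 2 + ε / 4 * N ^ 2) + ε / 4 * Y * N ^ 2 := by
    have h1 : ∀ a ∈ Aset, (∑ p ∈ Pset, ft w X η R c v p a) ^ 2 ≤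
        ∑ p ∈ Pset, ∑ q ∈ Pset.erase p, fw w X R c v p a * fw w X R c v q a +
          ∑ p ∈ Pset, ft w X η R c v p a ^ 2 := by
      intro a _
      rw [sq, sum_mul_sum, ← sum_add_distrib]
      refine sum_le_sum fun p hp => ?_
      rw [← add_sum_erase _ _ hp]
      have h2 : ∑ q ∈ Pset.erase p, ft w X η R c v p a * ft w X η R c v q a ≤
          ∑ q ∈ Pset.erase p, fw w X R c v p a * fw w X R c v q a :=
        sum_le_sum fun q _ => mul_le_mul (hftfw p a) (hftfw q a) (hft0 q a) (hfw0 p a)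
      rw [← sq]
      linarith
    refine (sum_le_sum h1).trans ?_
    rw [sum_add_distrib]
    refine add_le_add ?_ ?_
    · rw [sum_comm]
      refine le_trans (le_of_eq ?_) ho
      refine sum_congr rfl fun p _ => ?_
      rw [sum_comm]
    · rw [sum_comm]
      exact hd
  -- first moment
  have hfirst : Y * M - 2 * (ε / (16 * B)) * Y * N ≤
      ∑ a ∈ Aset, ∑ p ∈ Pset, ft w X η R c v p a := by
    rw [sum_comm]
    have h1 : ∀ p ∈ Pset, Y * mw w X R c v p - 2 * (ε / (16 * B)) * Y * Lam ≤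
        ∑ a ∈ Aset, ft w X η R c v p a := by
      intro p hp
      have h2 := (abs_le.1 (hmean2 X hXX₄ a₀ R c v hAdm p (K4_prime hp))).1
      have h3 := hui2 X P hXX₃ hRg.2 a₀ b R c v hAdm p hp (K4_gt hb hp)
      rw [sum_sub_distrib] at h3
      have h4 : ε / (16 * B) * Y ≤ ε / (16 * B) * Y * Lam := by
        have : 0 ≤ ε / (16 * B) * Y := by positivity
        nlinarith
      linarith
    refine le_trans (le_of_eq ?_) (sum_le_sum h1)
    rw [sum_sub_distrib, ← mul_sum, sum_const, nsmul_eq_mul, hN]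
    ring
  have hcard := K4_card (primorial w) a₀ hWn X hXpos.le
  -- expansion
  have hexp : ∑ a ∈ Aset, (∑ p ∈ Pset, ft w X η R c v p a - M) ^ 2 =
      ∑ a ∈ Aset, (∑ p ∈ Pset, ft w X η R c v p a) ^ 2 -
        2 * M * ∑ a ∈ Aset, ∑ p ∈ Pset, ft w X η R c v p a + (Aset.card : ℝ) * M ^ 2 := by
    rw [mul_sum, ← sum_sub_distrib]
    have : (Aset.card : ℝ) * M ^ 2 = ∑ a ∈ Aset, M ^ 2 := by rw [sum_const, nsmul_eq_mul]
    rw [this, ← sum_add_distrib]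
    refine sum_congr rfl fun a _ => ?_
    ring
  rw [hexp]
  have hM2 : M ^ 2 ≤ B ^ 2 * N ^ 2 := by
    rw [← mul_pow]
    exact pow_le_pow_left₀ hM0 hMB 2
  have hMN : M * N ≤ B * N ^ 2 := by
    calc M * N ≤ B * N * N := mul_le_mul_of_nonneg_right hMB hN0
      _ = B * N ^ 2 := by ring
  have hY4 : B ^ 2 ≤ ε / 4 * Y := by
    rw [hY, ← mul_div_assoc, le_div_iff₀ hWr]
    rw [div_le_iff₀ hε] at hl2
    linarith
  have h7 : (Aset.card : ℝ) * M ^ 2 ≤ Y * M ^ 2 + ε / 4 * Y * N ^ 2 := by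
    have h8 : (Aset.card : ℝ) * M ^ 2 ≤ (Y + 1) * M ^ 2 :=
      mul_le_mul_of_nonneg_right hcard (sq_nonneg M)
    have h9 : B ^ 2 * N ^ 2 ≤ ε / 4 * Y * N ^ 2 :=
      mul_le_mul_of_nonneg_right hY4 (sq_nonneg N)
    linarith
  have h10 : 2 * M * (Y * M - 2 * (ε / (16 * B)) * Y * N) ≤
      2 * M * ∑ a ∈ Aset, ∑ p ∈ Pset, ft w X η R c v p a :=
    mul_le_mul_of_nonneg_left hfirst (by positivity)
  have h11 : 2 * M * (2 * (ε / (16 * B)) * Y * N) ≤ ε / 4 * Y * N ^ 2 := by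
    have h12 : 2 * M * (2 * (ε / (16 * B)) * Y * N) = ε * Y / (4 * B) * (M * N) := by
      field_simp
      ring
    have h13 : ε / 4 * Y * N ^ 2 = ε * Y / (4 * B) * (B * N ^ 2) := by
      field_simp
    rw [h12, h13]
    exact mul_le_mul_of_nonneg_left hMN (by positivity)
  linarith

end Pool.Agent.helper71.AA
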