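import Pool.Agent.helper71.AA.S1

/-! # Project AA, module S2: second moments of Selberg's sum -/

namespace Pool.Agent.helper71.AA

open Finset

lemma S2_Ex_ch (Q L K K' : Finset ℕ) (hL : L ⊆ Q) (hQ : ∀ l ∈ Q, 2 ≤ l) (hK : K ⊆ Q \ L)
    (hK' : K' ⊆ Q \ L) : Ex Q (fun A => if L ⊆ A then ch K A * ch K' A else 0) =
      if K = K' then ph K / pr L else 0 := by
  set u : ℕ → ℝ := fun l => (if l ∈ K then 1 - (l : ℝ) else 1) * (if l ∈ K' then 1 - (l : ℝ) else 1)
    with hu
  set v : ℕ → ℝ := fun l => if l ∈ L then 0 else 1 with hv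
  have e0 : ∀ K : Finset ℕ, K ⊆ Q → ∀ A ⊆ Q, ch K A = ∏ l ∈ A, (if l ∈ K then 1 - (l : ℝ) else 1) := by
    intro K hK A _
    unfold ch
    rw [prod_ite_mem, prod_ite_mem, inter_comm]
  have e1 : Ex Q (fun A => if L ⊆ A then ch K A * ch K' A else 0) =
      Ex Q (fun A => (∏ l ∈ A, u l) * ∏ l ∈ Q \ A, v l) := by
    apply Ex_congr
    intro A hA
    show (if L ⊆ A then ch K A * ch K' A else 0) = (∏ l ∈ A, u l) * ∏ l ∈ Q \ A, v l
    by_cases h : L ⊆ A
    · rw [if_pos h, e0 K (hK.trans sdiff_subset) A hA, e0 K' (hK'.trans sdiff_subset) A hA,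
        ← prod_mul_distrib]
      have h2 : ∏ l ∈ Q \ A, v l = 1 := by
        apply prod_eq_one
        intro l hl
        simp only [hv]
        rw [if_neg]
        exact fun hh => (mem_sdiff.1 hl).2 (h hh)
      rw [h2, mul_one]
    · rw [if_neg h]
      obtain ⟨l, hl, hlA⟩ := not_subset.1 h
      have h2 : ∏ l ∈ Q \ A, v l = 0 := by
        apply prod_eq_zero (mem_sdiff.2 ⟨hL hl, hlA⟩)
        simp only [hv]
        rw [if_pos hl]
      rw [h2, mul_zero]
  rw [e1, Ex_prod]
  by_cases hKK : K = K'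
  · rw [if_pos hKK]
    subst hKK
    have e2 : ∀ l ∈ Q, u l / l + (1 - 1 / (l : ℝ)) * v l =
        (if l ∈ L then 1 / (l : ℝ) else 1) * (if l ∈ K then (l : ℝ) - 1 else 1) := by
      intro l hl
      have hl0 : (l : ℝ) ≠ 0 := by
        have := hQ l hl
        exact_mod_cast (by omega : l ≠ 0)
      simp only [hu, hv]
      by_cases h1 : l ∈ L
      · have h2 : l ∉ K := fun h => (mem_sdiff.1 (hK h)).2 h1
        simp [h1, h2]
      · by_cases h2 : l ∈ K
        · simp only [h1, h2, if_true, if_false]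
          field_simp
          ring
        · simp only [h1, h2, if_false]
          field_simp
          ring
    rw [prod_congr rfl e2, prod_mul_distrib, prod_ite_mem, prod_ite_mem,
      inter_eq_right.2 hL, inter_eq_right.2 (hK.trans sdiff_subset)]
    unfold ph pr
    rw [prod_div_distrib, prod_const_one, one_div, mul_comm, div_eq_mul_inv]
  · rw [if_neg hKK]
    -- an element in exactly one of the sets
    have h3 : ∃ l ∈ Q, (l ∈ K ∧ l ∉ K' ∨ l ∉ K ∧ l ∈ K') ∧ l ∉ L := by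
      by_contra hcon
      push Not at hcon
      apply hKK
      ext l
      constructor
      · intro h
        by_contra h'
        have := hK h
        rw [mem_sdiff] at this
        exact this.2 (hcon l this.1 (Or.inl ⟨h, h'⟩))
      · intro h
        by_contra h'
        have := hK' h
        rw [mem_sdiff] at this
        exact this.2 (hcon l this.1 (Or.inr ⟨h', h⟩))
    obtain ⟨l, hl, h4, h5⟩ := h3
    apply prod_eq_zero hl
    have hl0 : (l : ℝ) ≠ 0 := by
      have := hQ l hl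
      exact_mod_cast (by omega : l ≠ 0)
    simp only [hu, hv]
    rcases h4 with ⟨h6, h7⟩ | ⟨h6, h7⟩
    · simp only [h5, h6, h7, if_true, if_false]
      field_simp
      ring
    · simp only [h5, h6, h7, if_true, if_false]
      field_simp
      ring

lemma S2_expand (Q L A : Finset ℕ) (hL : L ⊆ Q) (hQ : ∀ l ∈ Q, 2 ≤ l) (hLA : L ⊆ A) (R : ℝ) :
    Sg Q R A = ∑ K ∈ Sub (Q \ L) R, ch K A / ph K * Mb L (R / pr K) := by
  unfold Sg Sub Mb
  rw [sum_filter, S1_split Q L hL, sum_filter]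
  refine sum_congr rfl fun K hK => ?_
  rw [mem_powerset] at hK
  have hd : Disjoint K L := disjoint_of_subset_left hK sdiff_disjoint
  have hK2 : ∀ l ∈ K, 2 ≤ l := fun l hl => hQ l (sdiff_subset (hK hl))
  have hpK := S1_pr_pos hK2
  have hphK := S1_ph_pos hK2
  unfold Sub
  rw [sum_filter]
  have e1 : ∀ H ∈ L.powerset, (if pr (K ∪ H) ≤ R then ch (K ∪ H) A / ph (K ∪ H) else 0) =
      if pr H ≤ R / pr K then ch K A / ph K * (-1) ^ H.card else 0 := by
    intro H hH
    rw [mem_powerset] at hH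
    have hH2 : ∀ l ∈ H, 2 ≤ l := fun l hl => hQ l (hL (hH hl))
    have hphH := S1_ph_pos hH2
    have hdH : Disjoint K H := disjoint_of_subset_right hH hd
    have hch : ch (K ∪ H) A = ch K A * ((-1) ^ H.card * ph H) := by
      unfold ch
      rw [prod_union hdH]
      congr 1
      unfold ph
      rw [← prod_const, ← prod_mul_distrib]
      refine prod_congr rfl fun l hl => ?_
      rw [if_pos (hLA (hH hl))]
      ring
    rw [S1_pr_union K H hdH, S1_ph_union K H hdH, hch]
    have h3 : pr K * pr H ≤ R ↔ pr H ≤ R / pr K := by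
      rw [le_div_iff₀ hpK, mul_comm]
    simp only [h3]
    split_ifs
    · field_simp
    · rfl
  rw [sum_congr rfl e1]
  by_cases hR : pr K ≤ R
  · rw [if_pos hR, mul_sum]
    refine sum_congr rfl fun H _ => ?_
    split_ifs <;> simp
  · rw [if_neg hR]
    refine sum_eq_zero fun H hH => ?_
    rw [mem_powerset] at hH
    rw [if_neg]
    intro h
    have h4 : 1 ≤ pr H := S1_pr_ge fun l hl => hQ l (hL (hH hl))
    have h5 : R / pr K < 1 := by rw [div_lt_one hpK]; exact not_le.1 hR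
    linarith

theorem Ex_Sg_sq (Q L : Finset ℕ) (hL : L ⊆ Q) (hQ : ∀ l ∈ Q, 2 ≤ l) (R : ℝ) :
    pr L * Ex Q (fun A => if L ⊆ A then Sg Q R A ^ 2 else 0) =
      ∑ K ∈ Sub (Q \ L) R, 1 / ph K * Mb L (R / pr K) ^ 2 := by
  have hL0 : pr L ≠ 0 := (S1_pr_pos fun l hl => hQ l (hL hl)).ne'
  set S := Sub (Q \ L) R with hS
  set m : Finset ℕ → ℝ := fun K => Mb L (R / pr K) with hm
  have e1 : Ex Q (fun A => if L ⊆ A then Sg Q R A ^ 2 else 0) =
      Ex Q (fun A => ∑ K ∈ S, ∑ K' ∈ S, (m K * m K' / (ph K * ph K')) *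
        (if L ⊆ A then ch K A * ch K' A else 0)) := by
    apply Ex_congr
    intro A hA
    show (if L ⊆ A then Sg Q R A ^ 2 else 0) = _
    by_cases h : L ⊆ A
    · rw [if_pos h, S2_expand Q L A hL hQ h R, sq, sum_mul_sum]
      refine sum_congr rfl fun K _ => sum_congr rfl fun K' _ => ?_
      rw [if_pos h]
      simp only [hm]
      ring
    · rw [if_neg h]
      symm
      refine sum_eq_zero fun K _ => sum_eq_zero fun K' _ => ?_
      rw [if_neg h, mul_zero]
  rw [e1, Ex_sum, mul_sum]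
  refine sum_congr rfl fun K hK => ?_
  rw [S1_mem_Sub] at hK
  have hphK := S1_ph_pos fun l hl => hQ l (sdiff_subset (hK.1 hl))
  rw [Ex_sum]
  have e2 : ∀ K' ∈ S, Ex Q (fun A => (m K * m K' / (ph K * ph K')) *
      (if L ⊆ A then ch K A * ch K' A else 0)) =
      if K = K' then (m K * m K' / (ph K * ph K')) * (ph K / pr L) else 0 := by
    intro K' hK'
    rw [S1_mem_Sub] at hK'
    rw [Ex_mul, S2_Ex_ch Q L K K' hL hQ hK.1 hK'.1]
    split_ifs <;> simp
  rw [sum_congr rfl e2, sum_ite_eq, if_pos (S1_mem_Sub.2 hK)]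
  simp only [hm]
  field_simp

theorem Ex_Sg_empty (Q : Finset ℕ) (hQ : ∀ l ∈ Q, 2 ≤ l) (R : ℝ) :
    Ex Q (fun A => Sg Q R A ^ 2) = Gs Q R := by
  have h := Ex_Sg_sq Q ∅ (empty_subset _) hQ R
  have h1 : pr ∅ = 1 := by unfold pr; simp
  rw [h1, one_mul] at h
  have h2 : Ex Q (fun A => if ∅ ⊆ A then Sg Q R A ^ 2 else 0) = Ex Q (fun A => Sg Q R A ^ 2) := by
    apply Ex_congr
    intro A _
    simp
  rw [← h2, h, sdiff_empty]
  unfold Gs
  refine sum_congr rfl fun K hK => ?_
  rw [S1_mem_Sub] at hK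
  have hK0 := S1_pr_pos fun l hl => hQ l (hK.1 hl)
  have h3 : Mb ∅ (R / pr K) = 1 := by
    unfold Mb Sub
    rw [powerset_empty, filter_singleton, if_pos]
    · simp
    · rw [h1, le_div_iff₀ hK0, one_mul]; exact hK.2
  rw [h3]
  ring

theorem Ex_Sg_le (Q L : Finset ℕ) (hL : L ⊆ Q) (hQ : ∀ l ∈ Q, 2 ≤ l) (R : ℝ) :
    pr L * Ex Q (fun A => if L ⊆ A then Sg Q R A ^ 2 else 0) ≤ 4 ^ L.card * Gs Q R := by
  rw [Ex_Sg_sq Q L hL hQ R]
  calc ∑ K ∈ Sub (Q \ L) R, 1 / ph K * Mb L (R / pr K) ^ 2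
      ≤ ∑ K ∈ Sub (Q \ L) R, 1 / ph K * 4 ^ L.card := by
        refine sum_le_sum fun K hK => ?_
        rw [S1_mem_Sub] at hK
        have := S1_ph_pos fun l hl => hQ l (sdiff_subset (hK.1 hl))
        refine mul_le_mul_of_nonneg_left ?_ (by positivity)
        have h1 := S1_Mb_abs L (R / pr K)
        calc Mb L (R / pr K) ^ 2 = |Mb L (R / pr K)| ^ 2 := (sq_abs _).symm
          _ ≤ (2 ^ L.card) ^ 2 := pow_le_pow_left₀ (abs_nonneg _) h1 2
          _ = 4 ^ L.card := by rw [← pow_mul, mul_comm, pow_mul]; norm_num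
    _ = 4 ^ L.card * Gs (Q \ L) R := by
        unfold Gs
        rw [← sum_mul, mul_comm]
    _ ≤ 4 ^ L.card * Gs Q R := by
        exact mul_le_mul_of_nonneg_left (S1_Gs_mono sdiff_subset hQ R) (by positivity)

theorem Ex_Sg_one (Q : Finset ℕ) (hQ : ∀ l ∈ Q, 2 ≤ l) (g : ℕ) (hg : g ∈ Q) (R : ℝ) :
    Ex Q (fun A => if g ∈ A then Sg Q R A ^ 2 else 0) =
      1 / (g : ℝ) * (Gs (Q.erase g) R - Gs (Q.erase g) (R / g)) := by
  have hg2 : (2 : ℝ) ≤ g := by exact_mod_cast hQ g hg
  have hg0 : (0 : ℝ) < g := by linarith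
  have h := Ex_Sg_sq Q {g} (singleton_subset_iff.2 hg) hQ R
  have h1 : pr {g} = g := by unfold pr; simp
  have h2 : Ex Q (fun A => if {g} ⊆ A then Sg Q R A ^ 2 else 0) =
      Ex Q (fun A => if g ∈ A then Sg Q R A ^ 2 else 0) := by
    apply Ex_congr
    intro A _
    simp
  rw [h1, h2] at h
  have h3 : ∑ K ∈ Sub (Q \ {g}) R, 1 / ph K * Mb {g} (R / pr K) ^ 2 =
      Gs (Q.erase g) R - Gs (Q.erase g) (R / g) := by
    rw [sdiff_singleton_eq_erase]
    unfold Gs Sub
    rw [sum_filter, sum_filter, sum_filter, ← sum_sub_distrib]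
    refine sum_congr rfl fun K hK => ?_
    rw [mem_powerset] at hK
    have hK2 : ∀ l ∈ K, 2 ≤ l := fun l hl => hQ l (mem_of_mem_erase (hK hl))
    have hK0 := S1_pr_pos hK2
    have h4 : Mb {g} (R / pr K) = (if pr K ≤ R then 1 else 0) - (if pr K ≤ R / g then 1 else 0) := by
      unfold Mb Sub
      rw [sum_filter]
      have hps : ({g} : Finset ℕ).powerset = {∅, {g}} := by
        ext H
        rw [mem_powerset, subset_singleton_iff, mem_insert, mem_singleton]
      rw [hps, sum_pair (by simp)]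
      have h5 : pr ∅ ≤ R / pr K ↔ pr K ≤ R := by
        unfold pr
        rw [prod_empty]
        rw [le_div_iff₀ (by exact hK0), one_mul]
      have h6 : pr {g} ≤ R / pr K ↔ pr K ≤ R / g := by
        rw [h1, le_div_iff₀ hK0, le_div_iff₀ hg0, mul_comm]
      simp only [h5, h6, card_empty, pow_zero, card_singleton, pow_one]
      split_ifs <;> ring
    rw [h4]
    have h7 : pr K ≤ R / g → pr K ≤ R := by
      intro h8
      rw [le_div_iff₀ hg0] at h8
      nlinarith
    by_cases h8 : pr K ≤ R / g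
    · simp only [h8, h7 h8, if_true]
      ring
    · by_cases h9 : pr K ≤ R
      · simp only [h8, h9, if_true, if_false]
        ring
      · simp only [h8, h9, if_false]
        ring
  rw [h3] at h
  rw [← h]
  field_simp

end Pool.Agent.helper71.AA
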