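import Mathlib

/-! # Project AA (MP_ad8ced_nt): almost prime values of `a p² - 1`, `p` prime, for almost all `a`.
Definitions. -/

namespace Pool.Agent.helper71.AA

open Finset

/-- product of the elements -/
noncomputable def pr (K : Finset ℕ) : ℝ := ∏ l ∈ K, (l : ℝ)

/-- product of the `l - 1` -/
noncomputable def ph (K : Finset ℕ) : ℝ := ∏ l ∈ K, ((l : ℝ) - 1)

/-- the subsets with product at most `x` -/
noncomputable def Sub (Q : Finset ℕ) (x : ℝ) : Finset (Finset ℕ) :=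
  Q.powerset.filter (fun K => pr K ≤ x)

/-- expectation over the random subset of `Q` which contains `l` with probability `1 / l`,
independently -/
noncomputable def Ex (Q : Finset ℕ) (F : Finset ℕ → ℝ) : ℝ :=
  ∑ A ∈ Q.powerset, (∏ l ∈ A, (1 / (l : ℝ))) * (∏ l ∈ Q \ A, (1 - 1 / (l : ℝ))) * F A

/-- orthogonal functions -/
noncomputable def ch (K A : Finset ℕ) : ℝ := ∏ l ∈ K, (if l ∈ A then 1 - (l : ℝ) else 1)

/-- sum of the `1 / φ` -/
noncomputable def Gs (Q : Finset ℕ) (x : ℝ) : ℝ := ∑ K ∈ Sub Q x, 1 / ph K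

/-- Selberg's sum -/
noncomputable def Sg (Q : Finset ℕ) (R : ℝ) (A : Finset ℕ) : ℝ := ∑ K ∈ Sub Q R, ch K A / ph K

/-- sum of the Moebius function -/
noncomputable def Mb (L : Finset ℕ) (x : ℝ) : ℝ := ∑ H ∈ Sub L x, (-1 : ℝ) ^ H.card

/-- divisor sum representation of a function of a set of primes -/
def Rep (Q : Finset ℕ) (F ξ : Finset ℕ → ℝ) : Prop := ∀ A ⊆ Q, F A = ∑ D ∈ A.powerset, ξ D

/-- coefficients of the orthogonal expansion -/
noncomputable def Th (Q : Finset ℕ) (ξ : Finset ℕ → ℝ) (K : Finset ℕ) : ℝ :=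
  ∑ D ∈ Q.powerset.filter (fun D => K ⊆ D), ξ D / pr D

/-- density of the pairs of conditions -/
noncomputable def rho (N D E : Finset ℕ) : ℝ := if D ∩ E ⊆ N then 1 / pr (D ∪ E) else 0

/-- correlation of the orthogonal functions -/
noncomputable def kap (N K : Finset ℕ) : ℝ := ∏ l ∈ K, (if l ∈ N then (l : ℝ) - 1 else -1)

/-- weight function on the primes dividing `n` -/
noncomputable def Vf (c : ℝ) (v : ℕ → ℝ) (A : Finset ℕ) : ℝ := c + ∑ l ∈ A, v l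

/-- the sifting weights -/
noncomputable def Ff (Q : Finset ℕ) (R c : ℝ) (v : ℕ → ℝ) (A : Finset ℕ) : ℝ :=
  Sg Q R A ^ 2 * Vf c v A

/-- primes in `(w, Z]` -/
def Qs (w Z : ℕ) : Finset ℕ := (Ioc w Z).filter Nat.Prime

/-- density of the integers prime to all primes `≤ w` -/
noncomputable def Aw (w : ℕ) : ℝ := (Nat.totient (primorial w) : ℝ) / (primorial w : ℝ)

/-- the coefficients `a ≤ X`, `a ≡ a₀` modulo `W` -/
noncomputable def As (W a₀ : ℕ) (X : ℝ) : Finset ℕ := (Icc 1 ⌊X⌋₊).filter (fun a => a ≡ a₀ [MOD W])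

/-- the primes `p ≤ P`, `p ≡ b` modulo `W` -/
noncomputable def Ps (W b : ℕ) (P : ℝ) : Finset ℕ :=
  (Icc 1 ⌊P⌋₊).filter (fun p => p.Prime ∧ p ≡ b [MOD W])

/-- the primes in `Q` which divide `a p² - 1` -/
def At (Q : Finset ℕ) (p a : ℕ) : Finset ℕ := Q.filter (fun l => l ∣ a * p ^ 2 - 1)

/-- the primes in `Q` which divide `p² - q²` -/
def Nn (Q : Finset ℕ) (p q : ℕ) : Finset ℕ := Q.filter (fun l => (l : ℤ) ∣ (p : ℤ) ^ 2 - (q : ℤ) ^ 2)

/-- multiplicative function -/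
noncomputable def Hd (w : ℕ) (c : ℝ) (m : ℕ) : ℝ :=
  ∏ l ∈ m.primeFactors.filter (fun l => w < l), (1 + c / ((l : ℝ) - 1))

/-- the factor in the correlations -/
noncomputable def Cf (Q : Finset ℕ) (p q : ℕ) : ℝ :=
  ∏ l ∈ (Q.erase p).erase q,
    (1 + 81 * (if l ∈ Nn Q p q then (l : ℝ) - 1 else 1) / ((l : ℝ) - 1) ^ 2)

/-- the primes of the sieve -/
noncomputable def QX (w : ℕ) (X : ℝ) : Finset ℕ := Qs w ⌊X ^ (0.43 : ℝ)⌋₊

/-- weight of `a p² - 1` -/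
noncomputable def fw (w : ℕ) (X R c : ℝ) (v : ℕ → ℝ) (p a : ℕ) : ℝ :=
  Ff ((QX w X).erase p) R c v (At (QX w X) p a)

/-- the same for those without prime factor `≤ X ^ η` in the range of the sieve -/
noncomputable def ft (w : ℕ) (X η R c : ℝ) (v : ℕ → ℝ) (p a : ℕ) : ℝ :=
  if ∀ l ∈ At (QX w X) p a, X ^ η < l then fw w X R c v p a else 0

/-- expectation of the weight -/
noncomputable def mw (w : ℕ) (X R c : ℝ) (v : ℕ → ℝ) (p : ℕ) : ℝ :=
  Ex ((QX w X).erase p) (Ff ((QX w X).erase p) R c v)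

/-- admissible weights -/
def Adm (X δ R c : ℝ) (v : ℕ → ℝ) : Prop :=
  1 ≤ R ∧ R ≤ X ^ (0.2 : ℝ) ∧ 0 ≤ c ∧ c ≤ 2 ∧ (∀ l, 0 ≤ v l ∧ v l ≤ 1) ∧
    (∀ l : ℕ, v l ≠ 0 → X ^ δ < l ∧ R ^ 2 * (l : ℝ) ≤ X ^ (0.498 : ℝ))

/-- the range of `P` -/
def Rg (C X P : ℝ) : Prop :=
  C * Real.log X * Real.log (Real.log X) ≤ P ∧ P ≤ X ^ (0.001 : ℝ)

/-- the good primes -/
noncomputable def Gp (a : ℕ) (P z : ℝ) : Finset ℕ :=
  (Icc 1 ⌊P⌋₊).filter (fun p => p.Prime ∧ (a * p ^ 2 - 1).primeFactorsList.length ≤ 3 ∧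
    ∀ l : ℕ, l ∈ (a * p ^ 2 - 1).primeFactors → z < (l : ℝ))

/-- the four weights: exponents of `R` -/
noncomputable def ρe (i : Fin 4) : ℝ := ![0.166, 0.119, 0.074, 0.034] i
/-- upper ends of the intervals -/
noncomputable def βe (i : Fin 4) : ℝ := ![0.166, 0.26, 0.35, 0.43] i
/-- lower ends of the intervals -/
noncomputable def αe (δ : ℝ) (i : Fin 4) : ℝ := ![δ, 0.166, 0.26, 0.35] i
/-- factors -/
noncomputable def κe (i : Fin 4) : ℝ := if i = 0 then 1 else (1.01 * 0.166 / ρe i) ^ 2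
/-- the weights of the primes -/
noncomputable def ve (X δ : ℝ) (i : Fin 4) (l : ℕ) : ℝ :=
  if X ^ (αe δ i) < l ∧ (l : ℝ) ≤ X ^ (βe i) then
    (if i = 0 then 1 else 1 - Real.log l / (0.43 * Real.log X)) else 0
/-- the main coefficient -/
noncomputable def lam : ℝ := 1.669

end Pool.Agent.helper71.AA
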