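import Pool.Agent.helper71.AA.L1
import Pool.Agent.helper13.AA.S3
import Pool.Agent.helper13.AA.S4
import Pool.Agent.helper51.AA.S5
import Pool.Agent.helper51.AA.P1
import Pool.Agent.helper33.AA.C1
import Pool.Agent.helper91.AA.H1
import Pool.Agent.helper43.AA.H2
import Pool.Agent.helper26.AA.N1
import Pool.Agent.helper26.AA.N2
import Pool.Agent.helper25.AA.N3
import Pool.Agent.helper25.AA.K0
import Pool.Agent.helper31.AA.F1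
import Pool.Agent.helper46.AA.F2

/-! # Project AA: wiring of the tools -/

namespace Pool.Agent.helper71.AA

open Finset

theorem mean_sum (W a₀ : ℕ) (hW : 0 < W) (Q : Finset ℕ) (hQ : ∀ l ∈ Q, l.Prime ∧ l.Coprime W)
    (p : ℕ) (hp : p.Prime) (F ξ : Finset ℕ → ℝ) (h : Rep (Q.erase p) F ξ) (X : ℝ) (hX : 0 ≤ X) :
    |∑ a ∈ As W a₀ X, F (At Q p a) - X / W * Ex (Q.erase p) F| ≤
      ∑ D ∈ (Q.erase p).powerset, |ξ D| :=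
  mean_sum_of Rep_Ex W a₀ hW Q hQ p hp F ξ h X hX

theorem Gs_le (w : ℕ) (hw : 10 ≤ w) : ∃ X₀ : ℝ, ∀ X : ℝ, X₀ ≤ X → ∀ (Z : ℕ) (Q : Finset ℕ),
    Q ⊆ Qs w Z → ∀ R : ℝ, R ≤ X ^ (0.2 : ℝ) → Gs Q R ≤ Aw w * Real.log X :=
  Gs_le_of Gs_upper w hw

theorem Hd_avg : ∃ C : ℝ, 0 < C ∧ ∀ w : ℕ, 200 ≤ w → ∃ P₀ : ℝ, ∀ P : ℝ, P₀ ≤ P →
    ∀ b : ℕ, b.Coprime (primorial w) →
      ∑ p ∈ Ps (primorial w) b P, ∑ q ∈ (Ps (primorial w) b P).erase p,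
        (Hd w 200 ((p : ℤ) - q).natAbs - 1) ≤ C / w * ((Ps (primorial w) b P).card : ℝ) ^ 2 ∧
      ∑ p ∈ Ps (primorial w) b P, ∑ q ∈ (Ps (primorial w) b P).erase p,
        (Hd w 200 (p + q) - 1) ≤ C / w * ((Ps (primorial w) b P).card : ℝ) ^ 2 :=
  Hd_avg_of Ps_bt Ps_lower

theorem pair_avg : ∃ C : ℝ, 0 < C ∧ ∀ w : ℕ, 200 ≤ w → ∃ P₀ : ℝ, ∀ P : ℝ, P₀ ≤ P →
    ∀ b : ℕ, b.Coprime (primorial w) → ∀ Q : Finset ℕ, (∀ l ∈ Q, l.Prime ∧ w < l) →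
      ∑ p ∈ Ps (primorial w) b P, ∑ q ∈ (Ps (primorial w) b P).erase p, (Cf Q p q - 1) ≤
        C / w * ((Ps (primorial w) b P).card : ℝ) ^ 2 :=
  pair_avg_of Hd_avg Cf_le

theorem fm_small (w : ℕ) (hw : 10 ≤ w) (η : ℝ) (hη : 0 < η) (hη1 : η ≤ 1 / 10) :
    ∃ X₀ : ℝ, ∀ X : ℝ, X₀ ≤ X → ∀ (R : ℝ) (p : ℕ), 1 ≤ R →
      Ex ((QX w X).erase p) (Ff ((QX w X).erase p) R 0
        (fun l => if (l : ℝ) ≤ X ^ η then 1 else 0)) ≤ 2 * η * Aw w * Real.log X :=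
  fm_small_of Gs_upper mert_log mert_inv w hw η hη hη1

theorem fm_main (w : ℕ) (hw : 10 ≤ w) (c : ℝ) (hc : 0 ≤ c) : ∃ C X₀ : ℝ, ∀ X : ℝ, X₀ ≤ X →
    ∀ p : ℕ, w < p → c * ((1 - 6 / w) * Aw w * (0.166 * Real.log X)) - C ≤
      mw w X (X ^ (0.166 : ℝ)) c (fun _ => 0) p :=
  fm_main_of Gs_lower w hw c hc

theorem fm_zero (w : ℕ) (hw : 10 ≤ w) (δ : ℝ) (hδ : 0 < δ) (hδ1 : δ ≤ 1 / 10) :
    ∃ C X₀ : ℝ, ∀ X : ℝ, X₀ ≤ X → ∀ p : ℕ,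
      mw w X (X ^ (ρe 0)) 0 (ve X δ 0) p ≤ (1 + 2 / w) * Aw w * (0.166 * Real.log X) + C :=
  fm_zero_of Gs_upper mert_log mert_inv w hw δ hδ hδ1

theorem fm_pos (w : ℕ) (hw : 10 ≤ w) (δ : ℝ) (i : Fin 4) (hi : i ≠ 0) :
    ∃ C X₀ : ℝ, ∀ X : ℝ, X₀ ≤ X → ∀ p : ℕ,
      mw w X (X ^ (ρe i)) 0 (ve X δ i) p ≤ (1 + 2 / w) * Aw w * (ρe i * Real.log X) *
        (Real.log (βe i / αe δ i) - (βe i - αe δ i) / 0.43) + C :=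
  fm_pos_of Gs_upper mert_log mert_inv w hw δ i hi

end Pool.Agent.helper71.AA
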