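import Pool.Agent.helper71.AA.U1

/-! # Project AA, module U2: upper bound, summed over the primes -/

namespace Pool.Agent.helper71.AA

open Finset

/-- primes up to `P` -/
theorem U2_pi (P : ℝ) (hP : 2 ≤ P) :
    ((((Icc 1 ⌊P⌋₊).filter Nat.Prime).card : ℕ) : ℝ) ≤ 6 * P / Real.log P := by
  have hP0 : 0 < P := by linarith
  have hlog : 0 < Real.log P := Real.log_pos (by linarith)
  have h1 := Chebyshev.pi_le_log4_mul_div (show 1 < P by linarith)
  have h2 : (((Icc 1 ⌊P⌋₊).filter Nat.Prime).card : ℕ) = Nat.primeCounting ⌊P⌋₊ := by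
    rw [Nat.primeCounting, Nat.primeCounting', Nat.count_eq_card_filter_range]
    congr 1
    ext p
    simp only [mem_filter, mem_Icc, mem_range]
    constructor
    · rintro ⟨⟨_, h⟩, hp⟩; exact ⟨by omega, hp⟩
    · rintro ⟨h, hp⟩; exact ⟨⟨hp.one_lt.le, by omega⟩, hp⟩
  rw [h2]
  have h3 : Real.log √P = Real.log P / 2 := Real.log_sqrt hP0.le
  have hs : 0 < √P := Real.sqrt_pos.2 hP0
  have h4 : Real.log √P ≤ √P - 1 := Real.log_le_sub_one_of_pos hs
  have h5 : √P * √P = P := Real.mul_self_sqrt hP0.le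
  have h6 : √P ≤ 2 * P / Real.log P := by
    rw [le_div_iff₀ hlog]
    have : Real.log P ≤ 2 * √P := by linarith
    calc √P * Real.log P ≤ √P * (2 * √P) := mul_le_mul_of_nonneg_left this hs.le
      _ = 2 * (√P * √P) := by ring
      _ = 2 * P := by rw [h5]
  have h7 : Real.log 4 ≤ 2 := by
    have : Real.log 4 = 2 * Real.log 2 := by
      rw [show (4 : ℝ) = 2 ^ 2 by norm_num, Real.log_pow]; norm_num
    rw [this]
    linarith [Real.log_two_lt_d9]
  have h8 : Real.log 4 * P / Real.log √P ≤ 4 * P / Real.log P := by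
    rw [h3, div_div_eq_mul_div]
    apply div_le_div_of_nonneg_right _ hlog.le
    nlinarith
  calc (Nat.primeCounting ⌊P⌋₊ : ℝ) ≤ Real.log 4 * P / Real.log √P + √P := h1
    _ ≤ 4 * P / Real.log P + 2 * P / Real.log P := add_le_add h8 h6
    _ = 6 * P / Real.log P := by ring

/-- double counting -/
theorem U2_swap (S T : Finset ℕ) (q : ℕ → Prop) [DecidablePred q] (r : ℕ → ℕ → Prop)
    [∀ a p, Decidable (r a p)] :
    ∑ a ∈ S, (((T.filter (fun p => q p ∧ r a p)).card : ℕ) : ℝ) =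
      ∑ p ∈ T.filter q, (((S.filter (fun a => r a p)).card : ℕ) : ℝ) := by
  have h1 : ∀ a ∈ S, (((T.filter (fun p => q p ∧ r a p)).card : ℕ) : ℝ) =
      ∑ p ∈ T.filter q, (if r a p then (1 : ℝ) else 0) := by
    intro a _
    rw [← filter_filter, sum_boole]
  rw [sum_congr rfl h1, sum_comm]
  refine sum_congr rfl fun p _ => ?_
  rw [sum_boole]

/-- summed over the primes up to `P` -/
theorem U2_sum (δ : ℝ) (hδ : 0 < δ) : ∃ C X₀ : ℝ, 0 < C ∧ ∀ X : ℝ, X₀ ≤ X → ∀ P : ℝ, 2 ≤ P →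
    ∑ a ∈ Icc 1 ⌊X⌋₊, ((((Icc 1 ⌊P⌋₊).filter (fun p => p.Prime ∧
      ∀ l : ℕ, l ∈ (a * p ^ 2 - 1).primeFactors → X ^ δ < (l : ℝ))).card : ℕ) : ℝ) ≤
      C * X * P / (Real.log P * Real.log X) := by
  obtain ⟨C, X₀, hC, h⟩ := U1_one δ hδ
  refine ⟨6 * C, max X₀ 2, by positivity, ?_⟩
  intro X hX P hP
  have hX0 : X₀ ≤ X := (le_max_left _ _).trans hX
  have hX2 : 2 ≤ X := (le_max_right _ _).trans hX
  have hlogX : 0 < Real.log X := Real.log_pos (by linarith)
  have hlogP : 0 < Real.log P := Real.log_pos (by linarith)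
  have hXpos : 0 < X := by linarith
  have hsw := U2_swap (Icc 1 ⌊X⌋₊) (Icc 1 ⌊P⌋₊) Nat.Prime
    (fun a p : ℕ => ∀ l : ℕ, l ∈ (a * p ^ 2 - 1).primeFactors → X ^ δ < (l : ℝ))
  refine (le_of_eq hsw).trans ?_
  have hE : 0 ≤ C * X / Real.log X := by positivity
  refine (sum_le_sum fun p hp => h X hX0 p (mem_filter.1 hp).2).trans ?_
  rw [sum_const, nsmul_eq_mul]
  refine (mul_le_mul_of_nonneg_right (U2_pi P hP) hE).trans (le_of_eq ?_)
  field_simp

end Pool.Agent.helper71.AA
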