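import Pool.Agent.helper71.AA.S2

/-! # Project AA, module L1: the combined weight -/

namespace Pool.Agent.helper71.AA

open Finset

/-- the combined weight -/
noncomputable def L1_ws (w : ℕ) (X δ η : ℝ) (p a : ℕ) : ℝ :=
  ft w X η (X ^ (0.166 : ℝ)) lam (fun _ => 0) p a
    - ∑ i, κe i * ft w X η (X ^ (ρe i)) 0 (ve X δ i) p a
    - 2 * fw w X (X ^ (0.166 : ℝ)) 0 (fun l => if (l : ℝ) ≤ X ^ δ then 1 else 0) p a

/-- `a p² - 1` is not squarefree and has only large prime factors -/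
def L1_bad (X δ : ℝ) (p a : ℕ) : Prop :=
  ¬ Squarefree (a * p ^ 2 - 1) ∧ ∀ l : ℕ, l ∈ (a * p ^ 2 - 1).primeFactors → X ^ δ < (l : ℝ)

lemma L1_ve_nonneg {X : ℝ} (hX : 1 < X) (δ : ℝ) (i : Fin 4) (l : ℕ) : 0 ≤ ve X δ i l := by
  unfold ve
  split_ifs with h h1
  · exact zero_le_one
  · have hlog : 0 < Real.log X := Real.log_pos hX
    have hX0 : 0 < X := by linarith
    have hβ : βe i ≤ 0.43 := by
      unfold βe
      fin_cases i <;> norm_num
    have hl0 : (0 : ℝ) < l := lt_trans (Real.rpow_pos_of_pos hX0 _) h.1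
    have h2 : Real.log l ≤ 0.43 * Real.log X := by
      calc Real.log l ≤ Real.log (X ^ (βe i)) := Real.log_le_log hl0 h.2
        _ = βe i * Real.log X := Real.log_rpow hX0 _
        _ ≤ 0.43 * Real.log X := by nlinarith
    have h3 : Real.log l / (0.43 * Real.log X) ≤ 1 := by
      rw [div_le_one (by positivity)]; exact h2
    linarith
  · exact le_rfl

lemma L1_κ_nonneg (i : Fin 4) : 0 ≤ κe i := by
  unfold κe
  split_ifs
  · exact zero_le_one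
  · positivity

lemma L1_Ff_nonneg (Q : Finset ℕ) (R c : ℝ) (hc : 0 ≤ c) (v : ℕ → ℝ) (hv : ∀ l, 0 ≤ v l)
    (A : Finset ℕ) : 0 ≤ Ff Q R c v A := by
  unfold Ff Vf
  have : 0 ≤ ∑ l ∈ A, v l := sum_nonneg fun l _ => hv l
  positivity

lemma L1_ft_nonneg (w : ℕ) (X η R c : ℝ) (hc : 0 ≤ c) (v : ℕ → ℝ) (hv : ∀ l, 0 ≤ v l) (p a : ℕ) :
    0 ≤ ft w X η R c v p a := by
  unfold ft
  split_ifs
  · exact L1_Ff_nonneg _ _ _ hc _ hv _
  · exact le_rfl

lemma L1_ft_le (w : ℕ) (X η R c : ℝ) (hc : 0 ≤ c) (v : ℕ → ℝ) (hv : ∀ l, 0 ≤ v l) (p a : ℕ) :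
    ft w X η R c v p a ≤ fw w X R c v p a := by
  unfold ft
  split_ifs
  · exact le_rfl
  · exact L1_Ff_nonneg _ _ _ hc _ hv _

lemma L1_prime_of_class {w b : ℕ} {P : ℝ} (hb : b.Coprime (primorial w)) {p : ℕ}
    (hp : p ∈ Ps (primorial w) b P) : p.Prime ∧ w < p ∧ (p : ℝ) ≤ P := by
  unfold Ps at hp
  rw [mem_filter, mem_Icc] at hp
  obtain ⟨⟨h1, h2⟩, h3, h4⟩ := hp
  refine ⟨h3, ?_, ?_⟩
  · by_contra hcon
    have hpw : p ≤ w := not_lt.1 hcon
    have hdvd : p ∣ primorial w := by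
      unfold primorial
      exact dvd_prod_of_mem _ (mem_filter.2 ⟨mem_range.2 (by omega), h3⟩)
    have h5 : Nat.gcd p (primorial w) = Nat.gcd b (primorial w) := h4.gcd_eq
    rw [Nat.Coprime] at hb
    rw [hb, Nat.gcd_eq_left hdvd] at h5
    exact h3.one_lt.ne' h5
  · exact (Nat.le_floor_iff' (by omega)).1 h2

lemma L1_n_bound {W a₀ : ℕ} {X P : ℝ} (hX : 1 < X) (hP : P ≤ X ^ (0.001 : ℝ)) {a p : ℕ}
    (ha : a ∈ As W a₀ X) (hp2 : 2 ≤ p) (hpP : (p : ℝ) ≤ P) :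
    0 < a * p ^ 2 - 1 ∧ ((a * p ^ 2 - 1 : ℕ) : ℝ) ≤ X ^ (1.002 : ℝ) := by
  have hX0 : 0 < X := by linarith
  unfold As at ha
  rw [mem_filter, mem_Icc] at ha
  obtain ⟨⟨h1, h2⟩, -⟩ := ha
  have h3 : (a : ℝ) ≤ X := (Nat.le_floor_iff' (by omega)).1 h2
  have h4 : 4 ≤ a * p ^ 2 := by nlinarith [Nat.pow_le_pow_left hp2 2]
  refine ⟨by omega, ?_⟩
  calc ((a * p ^ 2 - 1 : ℕ) : ℝ) ≤ ((a * p ^ 2 : ℕ) : ℝ) := by
        exact_mod_cast Nat.sub_le _ _
    _ = (a : ℝ) * (p : ℝ) ^ 2 := by push_cast; ring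
    _ ≤ X * (X ^ (0.001 : ℝ)) ^ 2 := by
        have h5 : (p : ℝ) ≤ X ^ (0.001 : ℝ) := hpP.trans hP
        have h6 : (p : ℝ) ^ 2 ≤ (X ^ (0.001 : ℝ)) ^ 2 :=
          pow_le_pow_left₀ (Nat.cast_nonneg p) h5 2
        exact mul_le_mul h3 h6 (by positivity) hX0.le
    _ = X ^ (1.002 : ℝ) := by
        rw [← Real.rpow_natCast (X ^ (0.001 : ℝ)) 2, ← Real.rpow_mul hX0.le]
        conv_lhs => rw [← Real.rpow_one X]
        rw [← Real.rpow_mul hX0.le, ← Real.rpow_add hX0]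
        norm_num

lemma L1_not_dvd {a p : ℕ} (ha : 1 ≤ a) (hp : p.Prime) : ¬ p ∣ a * p ^ 2 - 1 := by
  intro h
  have h1 : p ∣ a * p ^ 2 := Dvd.dvd.mul_left (dvd_pow_self p two_ne_zero) a
  have h2 : 1 ≤ a * p ^ 2 := Nat.one_le_iff_ne_zero.2 (by
    have := hp.pos
    positivity)
  have h3 : p ∣ 1 := (Nat.dvd_sub_iff_right h2 h1).1 h
  exact hp.one_lt.ne' (Nat.dvd_one.1 h3)

/-- prime factors of `a p² - 1` are larger than `w` -/
lemma L1_large {w a₀ b : ℕ} (hab : ∀ l : ℕ, l.Prime → l ≤ w → ¬ (a₀ * b ^ 2 ≡ 1 [MOD l]))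
    {a p : ℕ} (ha1 : 1 ≤ a) (hp1 : 1 ≤ p) (ha : a ≡ a₀ [MOD primorial w])
    (hp : p ≡ b [MOD primorial w]) {l : ℕ} (hl : l.Prime) (hdvd : l ∣ a * p ^ 2 - 1) : w < l := by
  by_contra hcon
  have hlw : l ≤ w := not_lt.1 hcon
  have hlW : l ∣ primorial w := by
    unfold primorial
    exact dvd_prod_of_mem _ (mem_filter.2 ⟨mem_range.2 (by omega), hl⟩)
  apply hab l hl hlw
  have h1 : a * p ^ 2 ≡ a₀ * b ^ 2 [MOD l] := (ha.mul (hp.pow 2)).of_dvd hlW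
  have h2 : 1 ≤ a * p ^ 2 := Nat.one_le_iff_ne_zero.2 (by positivity)
  have h3 : 1 ≡ a * p ^ 2 [MOD l] := (Nat.modEq_iff_dvd' h2).2 hdvd
  exact (h3.trans h1).symm

lemma L1_Ω {n : ℕ} (hn : 0 < n) (hsq : Squarefree n) :
    n.primeFactorsList.length = n.primeFactors.card := by
  have h := (Nat.squarefree_iff_nodup_primeFactorsList hn.ne').1 hsq
  rw [Nat.primeFactors, List.toFinset_card_of_nodup h]

theorem L1_point
    (w : ℕ) (X δ η P : ℝ) (hX : 2 ≤ X) (hδ : 0 < δ) (hδ1 : δ ≤ 1 / 10) (hη : η ≤ δ)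
    (hP : P ≤ X ^ (0.001 : ℝ)) (G : ℝ)
    (hpw : ∀ p : ℕ, w < p → ∀ n : ℕ, 0 < n → Squarefree n →
      (n : ℝ) ≤ X ^ (1.002 : ℝ) → (∀ l : ℕ, l ∈ n.primeFactors → X ^ δ < (l : ℝ)) →
      4 ≤ n.primeFactors.card → ¬ p ∣ n →
      lam * Sg ((QX w X).erase p) (X ^ (0.166 : ℝ)) ((QX w X).filter (fun l => l ∣ n)) ^ 2 ≤
        ∑ i, κe i * Ff ((QX w X).erase p) (X ^ (ρe i)) 0 (ve X δ i)
          ((QX w X).filter (fun l => l ∣ n)))
    (hG : ∀ p : ℕ, Gs ((QX w X).erase p) (X ^ (0.166 : ℝ)) ≤ G)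
    (hAt : ∀ (W a₀ b : ℕ) (a : ℕ) (_ : a ∈ As W a₀ X) (p : ℕ) (_ : p ∈ Ps W b P)
      (Q S : Finset ℕ) (_ : ∀ l ∈ Q, l.Prime) (_ : S ⊆ At Q p a) (_ : ∀ l ∈ S, X ^ δ < (l : ℝ)),
      (S.card : ℝ) ≤ 1.002 / δ)
    (a₀ b : ℕ) (hb : b.Coprime (primorial w))
    (hab : ∀ l : ℕ, l.Prime → l ≤ w → ¬ (a₀ * b ^ 2 ≡ 1 [MOD l]))
    (a : ℕ) (ha : a ∈ As (primorial w) a₀ X) (p : ℕ) (hp : p ∈ Ps (primorial w) b P) :
    L1_ws w X δ η p a ≤ (2 * (4 : ℝ) ^ (1.002 / δ) * G ^ 2) *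
      ((if p ∈ Gp a P (X ^ δ) then 1 else 0) + (by classical exact
        (if L1_bad X δ p a then 1 else 0))) := by
  classical
  have hX1 : 1 < X := by linarith
  have hX0 : 0 < X := by linarith
  obtain ⟨hpp, hwp, hpP⟩ := L1_prime_of_class hb hp
  obtain ⟨hn0, hnX⟩ := L1_n_bound hX1 hP ha hpp.two_le hpP
  set n := a * p ^ 2 - 1 with hn
  have ha1 : 1 ≤ a := by
    unfold As at ha
    rw [mem_filter, mem_Icc] at ha
    exact ha.1.1
  have haW : a ≡ a₀ [MOD primorial w] := by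
    unfold As at ha
    exact (mem_filter.1 ha).2
  have hpW : p ≡ b [MOD primorial w] := by
    unfold Ps at hp
    exact (mem_filter.1 hp).2.2
  have hpn : ¬ p ∣ n := L1_not_dvd ha1 hpp
  set A := At (QX w X) p a with hA
  have hAn : A = (QX w X).filter (fun l => l ∣ n) := rfl
  set Q' := (QX w X).erase p with hQ'
  have hAQ : A ⊆ Q' := by
    intro l hl
    rw [hA] at hl
    unfold At at hl
    rw [mem_filter] at hl
    rw [hQ', mem_erase]
    exact ⟨fun h => hpn (h ▸ hl.2), hl.1⟩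
  have hQprime : ∀ l ∈ QX w X, l.Prime := by
    intro l hl
    unfold QX Qs at hl
    exact (mem_filter.1 hl).2
  have hQ2 : ∀ l ∈ Q', 2 ≤ l := fun l hl => (hQprime l (mem_of_mem_erase hl)).two_le
  have hG0 : 0 ≤ G := by
    refine le_trans ?_ (hG p)
    unfold Gs
    refine sum_nonneg fun K hK => ?_
    rw [S1_mem_Sub] at hK
    have := S1_ph_pos fun l hl => hQ2 l (hK.1 hl)
    positivity
  have hlam : 0 ≤ lam ∧ lam ≤ 2 := by unfold lam; norm_num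
  have hv0 : ∀ l : ℕ, (0 : ℝ) ≤ (fun _ : ℕ => (0 : ℝ)) l := fun _ => le_rfl
  have hvi : ∀ i l, 0 ≤ ve X δ i l := fun i l => L1_ve_nonneg hX1 δ i l
  set S0 := Sg Q' (X ^ (0.166 : ℝ)) A with hS0
  have hmain : fw w X (X ^ (0.166 : ℝ)) lam (fun _ => 0) p a = S0 ^ 2 * lam := by
    unfold fw Ff Vf
    simp [hS0, hQ', hA]
  have hsum0 : 0 ≤ ∑ i, κe i * ft w X η (X ^ (ρe i)) 0 (ve X δ i) p a :=
    sum_nonneg fun i _ => mul_nonneg (L1_κ_nonneg i) (L1_ft_nonneg _ _ _ _ _ le_rfl _ (hvi i) _ _)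
  have hsmall0 : 0 ≤ fw w X (X ^ (0.166 : ℝ)) 0 (fun l => if (l : ℝ) ≤ X ^ δ then 1 else 0) p a :=
    L1_Ff_nonneg _ _ _ le_rfl _ (fun l => by split_ifs <;> norm_num) _
  have hws : L1_ws w X δ η p a ≤ S0 ^ 2 * lam := by
    unfold L1_ws
    have := L1_ft_le w X η (X ^ (0.166 : ℝ)) lam hlam.1 (fun _ => 0) hv0 p a
    rw [hmain] at this
    linarith
  have hKpos : 0 ≤ 2 * (4 : ℝ) ^ (1.002 / δ) * G ^ 2 := by positivity
  by_cases hall : ∀ l ∈ A, X ^ δ < (l : ℝ)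
  · -- all prime factors are large
    have hprimes : ∀ l : ℕ, l ∈ n.primeFactors → X ^ δ < (l : ℝ) := by
      intro l hl
      have hlp := Nat.prime_of_mem_primeFactors hl
      have hld := Nat.dvd_of_mem_primeFactors hl
      have hwl := L1_large hab ha1 hpp.one_lt.le haW hpW hlp hld
      by_cases hlQ : l ≤ ⌊X ^ (0.43 : ℝ)⌋₊
      · apply hall l
        rw [hAn, mem_filter]
        refine ⟨?_, hld⟩
        unfold QX Qs
        rw [mem_filter, mem_Ioc]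
        exact ⟨⟨hwl, hlQ⟩, hlp⟩
      · have h1 : X ^ (0.43 : ℝ) < l := Nat.lt_of_floor_lt (not_le.1 hlQ)
        refine lt_of_le_of_lt ?_ h1
        exact Real.rpow_le_rpow_of_exponent_le hX1.le (by linarith)
    have hbound : S0 ^ 2 * lam ≤ 2 * (4 : ℝ) ^ (1.002 / δ) * G ^ 2 := by
      have hcard : (A.card : ℝ) ≤ 1.002 / δ :=
        hAt (primorial w) a₀ b a ha p hp (QX w X) A hQprime (by rw [hA]) hall
      have h1 : |S0| ≤ 2 ^ A.card * G := by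
        refine (Sg_abs Q' A hAQ hQ2 _).trans ?_
        exact mul_le_mul_of_nonneg_left (hG p) (by positivity)
      have h2 : S0 ^ 2 ≤ (2 ^ A.card * G) ^ 2 := by
        rw [← sq_abs]
        exact pow_le_pow_left₀ (abs_nonneg _) h1 2
      have h3 : ((2 : ℝ) ^ A.card) ^ 2 ≤ (4 : ℝ) ^ (1.002 / δ) := by
        calc ((2 : ℝ) ^ A.card) ^ 2 = (4 : ℝ) ^ A.card := by
              rw [← pow_mul, mul_comm, pow_mul]; norm_num
          _ = (4 : ℝ) ^ (A.card : ℝ) := (Real.rpow_natCast _ _).symm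
          _ ≤ _ := Real.rpow_le_rpow_of_exponent_le (by norm_num) hcard
      calc S0 ^ 2 * lam ≤ (2 ^ A.card * G) ^ 2 * 2 :=
            mul_le_mul h2 hlam.2 hlam.1 (by positivity)
        _ = 2 * ((2 : ℝ) ^ A.card) ^ 2 * G ^ 2 := by ring
        _ ≤ 2 * (4 : ℝ) ^ (1.002 / δ) * G ^ 2 := by
            have : 0 ≤ G ^ 2 := sq_nonneg _
            nlinarith
    by_cases hgp : p ∈ Gp a P (X ^ δ)
    · rw [if_pos hgp]
      have h1 : (0 : ℝ) ≤ (if L1_bad X δ p a then 1 else 0) := by split_ifs <;> norm_num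
      calc L1_ws w X δ η p a ≤ S0 ^ 2 * lam := hws
        _ ≤ 2 * (4 : ℝ) ^ (1.002 / δ) * G ^ 2 * 1 := by rw [mul_one]; exact hbound
        _ ≤ _ := mul_le_mul_of_nonneg_left (by linarith) hKpos
    · rw [if_neg hgp]
      by_cases hbad : L1_bad X δ p a
      · rw [if_pos hbad]
        calc L1_ws w X δ η p a ≤ S0 ^ 2 * lam := hws
          _ ≤ _ := by rw [zero_add, mul_one]; exact hbound
      · rw [if_neg hbad, add_zero, mul_zero]
        have hsq : Squarefree n := by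
          by_contra hcon
          exact hbad ⟨hcon, hprimes⟩
        have hpmem : p ∈ Icc 1 ⌊P⌋₊ := by
          unfold Ps at hp
          exact (mem_filter.1 hp).1
        have h4 : 4 ≤ n.primeFactors.card := by
          rw [← L1_Ω hn0 hsq]
          by_contra hcon
          apply hgp
          unfold Gp
          rw [mem_filter]
          exact ⟨hpmem, hpp, (by rw [← hn]; omega), hprimes⟩
        have h5 := hpw p hwp n hn0 hsq hnX hprimes h4 hpn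
        have hη' : ∀ l ∈ At (QX w X) p a, X ^ η < (l : ℝ) := fun l hl =>
          lt_of_le_of_lt (Real.rpow_le_rpow_of_exponent_le hX1.le hη) (hall l hl)
        unfold L1_ws
        have e1 : ft w X η (X ^ (0.166 : ℝ)) lam (fun _ => 0) p a = S0 ^ 2 * lam := by
          unfold ft
          rw [if_pos hη', hmain]
        have e2 : ∑ i, κe i * ft w X η (X ^ (ρe i)) 0 (ve X δ i) p a =
            ∑ i, κe i * Ff Q' (X ^ (ρe i)) 0 (ve X δ i) A := by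
          refine sum_congr rfl fun i _ => ?_
          unfold ft
          rw [if_pos hη']
          rfl
        rw [e1, e2]
        have e3 : lam * S0 ^ 2 ≤ ∑ i, κe i * Ff Q' (X ^ (ρe i)) 0 (ve X δ i) A := h5
        linarith
  · -- a small prime factor
    push Not at hall
    obtain ⟨l, hl, hlX⟩ := hall
    have h1 : S0 ^ 2 ≤ fw w X (X ^ (0.166 : ℝ)) 0 (fun l => if (l : ℝ) ≤ X ^ δ then 1 else 0) p a := by
      unfold fw Ff Vf
      have h2 : (1 : ℝ) ≤ 0 + ∑ l ∈ At (QX w X) p a, (if (l : ℝ) ≤ X ^ δ then 1 else 0) := by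
        rw [zero_add]
        calc (1 : ℝ) = (if (l : ℝ) ≤ X ^ δ then 1 else 0) := by rw [if_pos hlX]
          _ ≤ _ := single_le_sum (f := fun l : ℕ => if (l : ℝ) ≤ X ^ δ then (1 : ℝ) else 0)
              (fun x _ => by split_ifs <;> norm_num) hl
      have h3 : 0 ≤ S0 ^ 2 := sq_nonneg _
      calc S0 ^ 2 = S0 ^ 2 * 1 := (mul_one _).symm
        _ ≤ _ := mul_le_mul_of_nonneg_left h2 h3
    have h2 : L1_ws w X δ η p a ≤ 0 := by
      unfold L1_ws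
      have h3 := L1_ft_le w X η (X ^ (0.166 : ℝ)) lam hlam.1 (fun _ => 0) hv0 p a
      rw [hmain] at h3
      have h4 : 0 ≤ S0 ^ 2 := sq_nonneg _
      nlinarith [hlam.2]
    refine h2.trans ?_
    apply mul_nonneg hKpos
    have h5 : (0 : ℝ) ≤ (if L1_bad X δ p a then 1 else 0) := by split_ifs <;> norm_num
    have h6 : (0 : ℝ) ≤ (if p ∈ Gp a P (X ^ δ) then 1 else 0) := by split_ifs <;> norm_num
    linarith

end Pool.Agent.helper71.AA
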