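import Pool.Agent.helper71.AA.Defs

/-! # Project AA, module B0: basic lemmas -/

namespace Pool.Agent.helper71.AA

open Finset

lemma B0_wt_nonneg (Q : Finset ℕ) (hQ : ∀ l ∈ Q, 2 ≤ l) (A : Finset ℕ) (hA : A ⊆ Q) :
    0 ≤ (∏ l ∈ A, (1 / (l : ℝ))) * ∏ l ∈ Q \ A, (1 - 1 / (l : ℝ)) := by
  apply mul_nonneg
  · exact prod_nonneg fun l _ => by positivity
  · refine prod_nonneg fun l hl => ?_
    have h2 : (2 : ℝ) ≤ l := by exact_mod_cast hQ l (mem_sdiff.1 hl).1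
    have : 1 / (l : ℝ) ≤ 1 := by
      rw [div_le_one (by linarith)]; linarith
    linarith

theorem Ex_congr (Q : Finset ℕ) (F F' : Finset ℕ → ℝ) (hF : ∀ A ⊆ Q, F A = F' A) :
    Ex Q F = Ex Q F' := by
  unfold Ex
  refine sum_congr rfl fun A hA => ?_
  rw [hF A (mem_powerset.1 hA)]

theorem Ex_mono (Q : Finset ℕ) (hQ : ∀ l ∈ Q, 2 ≤ l) (F F' : Finset ℕ → ℝ)
    (hF : ∀ A ⊆ Q, F A ≤ F' A) : Ex Q F ≤ Ex Q F' := by
  unfold Ex
  refine sum_le_sum fun A hA => ?_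
  exact mul_le_mul_of_nonneg_left (hF A (mem_powerset.1 hA))
    (B0_wt_nonneg Q hQ A (mem_powerset.1 hA))

theorem Ex_nonneg (Q : Finset ℕ) (hQ : ∀ l ∈ Q, 2 ≤ l) (F : Finset ℕ → ℝ)
    (hF : ∀ A ⊆ Q, 0 ≤ F A) : 0 ≤ Ex Q F := by
  unfold Ex
  refine sum_nonneg fun A hA => ?_
  exact mul_nonneg (B0_wt_nonneg Q hQ A (mem_powerset.1 hA)) (hF A (mem_powerset.1 hA))

theorem Ex_add (Q : Finset ℕ) (F F' : Finset ℕ → ℝ) :
    Ex Q (fun A => F A + F' A) = Ex Q F + Ex Q F' := by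
  unfold Ex
  rw [← sum_add_distrib]
  exact sum_congr rfl fun A _ => by ring

theorem Ex_mul (Q : Finset ℕ) (c : ℝ) (F : Finset ℕ → ℝ) :
    Ex Q (fun A => c * F A) = c * Ex Q F := by
  unfold Ex
  rw [mul_sum]
  exact sum_congr rfl fun A _ => by ring

theorem Ex_sum {ι : Type} (Q : Finset ℕ) (s : Finset ι) (F : ι → Finset ℕ → ℝ) :
    Ex Q (fun A => ∑ i ∈ s, F i A) = ∑ i ∈ s, Ex Q (F i) := by
  unfold Ex
  rw [sum_comm]
  exact sum_congr rfl fun A _ => by rw [mul_sum]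

/-- product functions -/
theorem Ex_prod (Q : Finset ℕ) (u v : ℕ → ℝ) :
    Ex Q (fun A => (∏ l ∈ A, u l) * ∏ l ∈ Q \ A, v l) =
      ∏ l ∈ Q, (u l / l + (1 - 1 / (l : ℝ)) * v l) := by
  rw [prod_add]
  unfold Ex
  refine sum_congr rfl fun A _ => ?_
  have h1 : ∏ l ∈ A, (u l / (l : ℝ)) = (∏ l ∈ A, (1 / (l : ℝ))) * ∏ l ∈ A, u l := by
    rw [← prod_mul_distrib]
    exact prod_congr rfl fun l _ => by ring
  rw [h1, prod_mul_distrib]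
  ring

end Pool.Agent.helper71.AA
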