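import Pool.Agent.helper71.AA.L1b
import Pool.Agent.helper46.AA.F2
import Pool.Agent.helper51.AA.P1

/-! # Project AA, module L1: almost all `a` in a class -/

namespace Pool.Agent.helper71.AA

open Finset Filter

lemma L1_adm_main {X δ : ℝ} (hX : 2 ≤ X) : Adm X δ (X ^ (0.166 : ℝ)) lam (fun _ => 0) := by
  have hX1 : 1 ≤ X := by linarith
  refine ⟨Real.one_le_rpow hX1 (by norm_num),
    Real.rpow_le_rpow_of_exponent_le hX1 (by norm_num), ?_, ?_, ?_, ?_⟩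
  · unfold lam; norm_num
  · unfold lam; norm_num
  · intro l; constructor <;> norm_num
  · intro l h; exact absurd rfl h

lemma L1_adm_i {X δ : ℝ} (hX : 2 ≤ X) (_hδ : 0 < δ) (hδ1 : δ ≤ 1 / 10) (i : Fin 4) :
    Adm X δ (X ^ (ρe i)) 0 (ve X δ i) := by
  have hX1 : 1 ≤ X := by linarith
  have hX0 : 0 < X := by linarith
  have hX2 : 1 < X := by linarith
  have hρ0 : 0 ≤ ρe i := by unfold ρe; fin_cases i <;> norm_num
  have hρ1 : ρe i ≤ 0.2 := by unfold ρe; fin_cases i <;> norm_num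
  have hρβ : 2 * ρe i + βe i ≤ 0.498 := by unfold ρe βe; fin_cases i <;> norm_num
  have hα : δ ≤ αe δ i := by
    unfold αe
    fin_cases i
    · simp
    · simp; linarith
    · simp; linarith
    · simp; linarith
  refine ⟨Real.one_le_rpow hX1 hρ0, Real.rpow_le_rpow_of_exponent_le hX1 hρ1, le_rfl,
    by norm_num, ?_, ?_⟩
  · intro l
    refine ⟨L1_ve_nonneg hX2 δ i l, ?_⟩
    unfold ve
    split_ifs with h h1
    · exact le_rfl
    · have h2 : 1 ≤ (l : ℝ) := by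
        have h3 : 1 ≤ X ^ (αe δ i) := by
          have : 0 ≤ αe δ i := by linarith
          exact Real.one_le_rpow hX1 this
        linarith [h.1]
      have h3 : 0 ≤ Real.log l := Real.log_nonneg h2
      have h4 : 0 < Real.log X := Real.log_pos hX2
      have h5 : 0 ≤ Real.log l / (0.43 * Real.log X) := by positivity
      linarith
    · norm_num
  · intro l hl
    have h : X ^ (αe δ i) < l ∧ (l : ℝ) ≤ X ^ (βe i) := by
      by_contra hcon
      apply hl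
      unfold ve
      rw [if_neg hcon]
    constructor
    · exact lt_of_le_of_lt (Real.rpow_le_rpow_of_exponent_le hX1 hα) h.1
    · calc (X ^ (ρe i)) ^ 2 * (l : ℝ) ≤ (X ^ (ρe i)) ^ 2 * X ^ (βe i) :=
            mul_le_mul_of_nonneg_left h.2 (by positivity)
        _ = X ^ (2 * ρe i + βe i) := by
            rw [← Real.rpow_natCast (X ^ (ρe i)) 2, ← Real.rpow_mul hX0.le, ← Real.rpow_add hX0]
            congr 1
            push_cast
            ring
        _ ≤ X ^ (0.498 : ℝ) := Real.rpow_le_rpow_of_exponent_le hX1 hρβ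

lemma L1_Aw_pos (w : ℕ) : 0 < Aw w := by
  unfold Aw
  have h1 : 0 < primorial w := primorial_pos w
  have h2 : 0 < Nat.totient (primorial w) := Nat.totient_pos.2 h1
  positivity

lemma L1_Aw_le (w : ℕ) : Aw w ≤ 1 := by
  unfold Aw
  have h1 : 0 < primorial w := primorial_pos w
  rw [div_le_one (by exact_mod_cast h1)]
  exact_mod_cast Nat.totient_le _

/-- the main inequality between the first moments -/
lemma L1_main_ineq (w : ℕ) (hw : 2000 ≤ w) (δ Λ m₀ C₀ : ℝ) (m C : Fin 4 → ℝ) (hΛ : 0 < Λ)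
    (hm₀ : lam * ((1 - 6 / w) * (0.166 * Λ)) - C₀ ≤ m₀)
    (hmz : m 0 ≤ (1 + 2 / w) * (0.166 * Λ) + C 0)
    (hmi : ∀ i : Fin 4, i ≠ 0 → m i ≤ (1 + 2 / w) * (ρe i * Λ) *
      (Real.log (βe i / αe δ i) - (βe i - αe δ i) / 0.43) + C i)
    (hC : C₀ + ∑ i, κe i * C i ≤ 0.0008 * Λ) :
    0.004 * Λ ≤ m₀ - ∑ i, κe i * m i := by
  have hw0 : (2000 : ℝ) ≤ w := by exact_mod_cast hw
  have hwp : (0 : ℝ) < w := by linarith
  have h1 := num_ineq δ
  set E : Fin 4 → ℝ := fun i => Real.log (βe i / αe δ i) - (βe i - αe δ i) / 0.43 with hE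
  have hsum : ∀ f : Fin 4 → ℝ, ∑ i, f i = f 0 + ∑ i ∈ ({1, 2, 3} : Finset (Fin 4)), f i := by
    intro f
    rw [Fin.sum_univ_four]
    simp [sum_insert, sum_singleton]
    ring
  set T := ∑ i ∈ ({1, 2, 3} : Finset (Fin 4)), κe i * (ρe i * E i) with hT
  have h2 : ∑ i ∈ ({1, 2, 3} : Finset (Fin 4)), κe i * m i ≤
      (1 + 2 / w) * Λ * T + ∑ i ∈ ({1, 2, 3} : Finset (Fin 4)), κe i * C i := by
    rw [hT, mul_sum, ← sum_add_distrib]
    refine sum_le_sum fun i hi => ?_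
    have hi0 : i ≠ 0 := by
      rintro rfl
      revert hi
      decide
    have h3 := mul_le_mul_of_nonneg_left (hmi i hi0) (L1_κ_nonneg i)
    calc κe i * m i ≤ _ := h3
      _ = _ := by ring
  rw [hsum] at hC ⊢
  have hκ0 : κe 0 = 1 := by unfold κe; simp
  rw [hκ0] at hC ⊢
  have h4 : 0.166 + T + 0.006 ≤ lam * 0.166 := h1
  have hlam : lam = 1.669 := rfl
  rw [hlam] at h4 hm₀
  have h5 : (1 : ℝ) / w ≤ 1 / 2000 := one_div_le_one_div_of_le (by norm_num) hw0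
  have h6 : (6 : ℝ) / w = 6 * (1 / w) := by ring
  have h7 : (2 : ℝ) / w = 2 * (1 / w) := by ring
  rw [h6] at hm₀
  rw [h7] at hmz h2
  set u : ℝ := 1 / w with hu
  have hu0 : 0 ≤ u := by positivity
  have h8 : u * Λ ≤ 1 / 2000 * Λ := mul_le_mul_of_nonneg_right h5 hΛ.le
  have hTΛ : Λ * T ≤ Λ * (1.669 * 0.166 - 0.006 - 0.166) :=
    mul_le_mul_of_nonneg_left (by linarith) hΛ.le
  have hTu : u * Λ * T ≤ u * Λ * (1.669 * 0.166 - 0.006 - 0.166) :=
    mul_le_mul_of_nonneg_left (by linarith) (by positivity)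
  nlinarith

/-- linearity -/
lemma L1_sum_ws (w : ℕ) (X δ η : ℝ) (a : ℕ) (s : Finset ℕ) :
    ∑ p ∈ s, L1_ws w X δ η p a =
      ∑ p ∈ s, ft w X η (X ^ (0.166 : ℝ)) lam (fun _ => 0) p a
      - ∑ i, κe i * ∑ p ∈ s, ft w X η (X ^ (ρe i)) 0 (ve X δ i) p a
      - 2 * ∑ p ∈ s, fw w X (X ^ (0.166 : ℝ)) 0 (fun l => if (l : ℝ) ≤ X ^ δ then 1 else 0) p a := by
  unfold L1_ws
  rw [sum_sub_distrib, sum_sub_distrib, ← mul_sum]
  congr 2
  rw [sum_comm]
  refine sum_congr rfl fun i _ => ?_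
  rw [mul_sum]

lemma L1_κ_le (i : Fin 4) : κe i ≤ 25 := by
  unfold κe ρe
  fin_cases i <;> norm_num

open Classical in
/-- good `a` -/
theorem L1_good (w : ℕ) (X δ η P : ℝ) (Λ N θ K : ℝ) (b : ℕ) (a : ℕ)
    (hN : N = ((Ps (primorial w) b P).card : ℝ))
    (μ₀ : ℝ) (μ : Fin 4 → ℝ) (hΛ : 0 < Λ) (hK : 0 < K) (hθ : θ = 0.001 / K)
    (hμ : 0.004 * (N * Λ) ≤ μ₀ - ∑ i, κe i * μ i)
    (h0 : |∑ p ∈ Ps (primorial w) b P, ft w X η (X ^ (0.166 : ℝ)) lam (fun _ => 0) p a - μ₀| <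
      0.00001 * (N * Λ))
    (hi : ∀ i, |∑ p ∈ Ps (primorial w) b P, ft w X η (X ^ (ρe i)) 0 (ve X δ i) p a - μ i| <
      0.00001 * (N * Λ))
    (hs : 2 * ∑ p ∈ Ps (primorial w) b P,
      fw w X (X ^ (0.166 : ℝ)) 0 (fun l => if (l : ℝ) ≤ X ^ δ then 1 else 0) p a < 0.001 * (N * Λ))
    (hbad : (((Ps (primorial w) b P).filter (fun p => L1_bad X δ p a)).card : ℝ) < θ * (N / Λ))
    (hpt : ∀ p ∈ Ps (primorial w) b P, L1_ws w X δ η p a ≤ (K * Λ ^ 2) *
      ((if p ∈ Gp a P (X ^ δ) then 1 else 0) + (if L1_bad X δ p a then 1 else 0))) :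
    0.0009 / K * (N / Λ) ≤ ((Gp a P (X ^ δ)).card : ℝ) := by
  have h1 := L1_sum_ws w X δ η a (Ps (primorial w) b P)
  have h2 : ∑ p ∈ Ps (primorial w) b P, L1_ws w X δ η p a ≤
      K * Λ ^ 2 * (((Gp a P (X ^ δ)).card : ℝ) +
        (((Ps (primorial w) b P).filter (fun p => L1_bad X δ p a)).card : ℝ)) := by
    calc ∑ p ∈ Ps (primorial w) b P, L1_ws w X δ η p a
        ≤ ∑ p ∈ Ps (primorial w) b P, (K * Λ ^ 2) *
          ((if p ∈ Gp a P (X ^ δ) then 1 else 0) + (if L1_bad X δ p a then 1 else 0)) :=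
          sum_le_sum hpt
      _ = K * Λ ^ 2 * (∑ p ∈ Ps (primorial w) b P, (if p ∈ Gp a P (X ^ δ) then (1 : ℝ) else 0) +
          ∑ p ∈ Ps (primorial w) b P, (if L1_bad X δ p a then (1 : ℝ) else 0)) := by
          rw [← mul_sum, sum_add_distrib]
      _ ≤ _ := by
          refine mul_le_mul_of_nonneg_left ?_ (by positivity)
          rw [sum_boole, sum_boole]
          refine add_le_add ?_ le_rfl
          have : ((Ps (primorial w) b P).filter (fun p => p ∈ Gp a P (X ^ δ))) ⊆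
              Gp a P (X ^ δ) := by
            intro p hp
            exact (mem_filter.1 hp).2
          exact_mod_cast card_le_card this
  have h3 : ∑ i, κe i * ∑ p ∈ Ps (primorial w) b P, ft w X η (X ^ (ρe i)) 0 (ve X δ i) p a ≤
      ∑ i, κe i * μ i + 100 * (0.00001 * (N * Λ)) := by
    have h4 : ∀ i ∈ (univ : Finset (Fin 4)),
        κe i * ∑ p ∈ Ps (primorial w) b P, ft w X η (X ^ (ρe i)) 0 (ve X δ i) p a ≤
        κe i * μ i + 25 * (0.00001 * (N * Λ)) := by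
      intro i _
      have h5 := (abs_lt.1 (hi i)).2
      have h6 := L1_κ_nonneg i
      have h7 := L1_κ_le i
      have h8 : 0 ≤ 0.00001 * (N * Λ) := (abs_nonneg _).trans (hi i).le
      nlinarith
    refine (sum_le_sum h4).trans ?_
    rw [sum_add_distrib, sum_const, card_univ, Fintype.card_fin, nsmul_eq_mul]
    apply le_of_eq
    push_cast
    ring
  have h9 := (abs_lt.1 h0).1
  have hNΛ : 0 ≤ N * Λ := by
    rw [hN]; positivity
  rw [h1] at h2
  have h11 : 0.0019 * (N * Λ) ≤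
      K * Λ ^ 2 * (((Gp a P (X ^ δ)).card : ℝ) +
      (((Ps (primorial w) b P).filter (fun p => L1_bad X δ p a)).card : ℝ)) := by
    have h12 : 0.004 * (N * Λ) - 0.00001 * (N * Λ) - 100 * (0.00001 * (N * Λ)) -
        0.001 * (N * Λ) = 0.00199 * (N * Λ) := by ring
    linarith
  set g := ((Gp a P (X ^ δ)).card : ℝ) with hg
  set r := (((Ps (primorial w) b P).filter (fun p => L1_bad X δ p a)).card : ℝ) with hr
  have h13 : 0.0019 / K * (N / Λ) ≤ g + r := by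
    have e : 0.0019 / K * (N / Λ) = 0.0019 * (N * Λ) / (K * Λ ^ 2) := by
      field_simp
    rw [e, div_le_iff₀ (by positivity)]
    linarith
  rw [hθ] at hbad
  have e2 : 0.0019 / K * (N / Λ) = 0.0009 / K * (N / Λ) + 0.001 / K * (N / Λ) := by
    ring
  linarith

/-- parameters for large `X` -/
lemma L1_eventually (C D P₀ W ε δ K A : ℝ) (hC : 0 < C) (hW : 0 < W) (hε : 0 < ε) (hδ : 0 < δ)
    (hδ1 : δ ≤ 1 / 10) (hK : 0 < K) (hA : 0 < A) : ∀ᶠ X : ℝ in atTop, 2 ≤ X ∧ 1 ≤ Real.log X ∧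
      P₀ ≤ C * Real.log X * Real.log (Real.log X) ∧ D ≤ A * Real.log X ∧
      A * Real.log X / (0.001 / K) * (2 * X / X ^ δ + X ^ (0.501 : ℝ)) ≤ ε * (X / W) := by
  have h1 : ∀ᶠ X : ℝ in atTop, 2 ≤ X := eventually_ge_atTop 2
  have h2 : ∀ᶠ X : ℝ in atTop, 1 ≤ Real.log X :=
    Real.tendsto_log_atTop.eventually_ge_atTop 1
  have h3 : ∀ᶠ X : ℝ in atTop, |P₀| / C ≤ Real.log (Real.log X) :=
    (Real.tendsto_log_atTop.comp Real.tendsto_log_atTop).eventually_ge_atTop _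
  have h4 : ∀ᶠ X : ℝ in atTop, D / A ≤ Real.log X :=
    Real.tendsto_log_atTop.eventually_ge_atTop _
  have h5 : ∀ᶠ X : ℝ in atTop, Real.log X ≤ (ε / W * (0.001 / K) / A / 3) * X ^ δ := by
    have := (isLittleO_log_rpow_atTop hδ).bound (show 0 < ε / W * (0.001 / K) / A / 3 by positivity)
    filter_upwards [this, h2, h1] with X hX h hX2
    rw [Real.norm_eq_abs, Real.norm_eq_abs, abs_of_nonneg (by linarith),
      abs_of_nonneg (by positivity)] at hX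
    exact hX
  filter_upwards [h1, h2, h3, h4, h5] with X hX hl hll hD hlog
  have hX0 : 0 < X := by linarith
  refine ⟨hX, hl, ?_, ?_, ?_⟩
  · rw [div_le_iff₀ hC] at hll
    calc P₀ ≤ |P₀| := le_abs_self _
      _ ≤ Real.log (Real.log X) * C := hll
      _ = C * 1 * Real.log (Real.log X) := by ring
      _ ≤ C * Real.log X * Real.log (Real.log X) := by
          have h6 : 0 ≤ Real.log (Real.log X) := by
            by_contra hcon
            have := abs_nonneg P₀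
            nlinarith
          exact mul_le_mul_of_nonneg_right (mul_le_mul_of_nonneg_left hl hC.le) h6
  · rw [div_le_iff₀ hA] at hD
    linarith
  · have hXδ : 0 < X ^ δ := by positivity
    have h7 : X ^ (0.501 : ℝ) ≤ X / X ^ δ := by
      rw [le_div_iff₀ hXδ, ← Real.rpow_add hX0]
      calc X ^ (0.501 + δ) ≤ X ^ (1 : ℝ) :=
            Real.rpow_le_rpow_of_exponent_le (by linarith) (by linarith)
        _ = X := Real.rpow_one X
    have h8 : 2 * X / X ^ δ + X ^ (0.501 : ℝ) ≤ 3 * (X / X ^ δ) := by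
      have : 2 * X / X ^ δ = 2 * (X / X ^ δ) := by ring
      rw [this]
      linarith
    have hlog0 : 0 ≤ Real.log X := by linarith
    calc A * Real.log X / (0.001 / K) * (2 * X / X ^ δ + X ^ (0.501 : ℝ))
        ≤ A * Real.log X / (0.001 / K) * (3 * (X / X ^ δ)) :=
          mul_le_mul_of_nonneg_left h8 (by positivity)
      _ ≤ A * ((ε / W * (0.001 / K) / A / 3) * X ^ δ) / (0.001 / K) * (3 * (X / X ^ δ)) := by
          refine mul_le_mul_of_nonneg_right ?_ (by positivity)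
          refine div_le_div_of_nonneg_right ?_ (by positivity)
          exact mul_le_mul_of_nonneg_left hlog hA.le
      _ = ε * (X / W) := by
          field_simp

lemma L1_alg (ε x y : ℝ) (hy : 0 < y) :
    ε * (0.00001) ^ 2 / 40 * x * y ^ 2 / (0.00001 * y) ^ 2 = ε / 40 * x := by
  rw [div_eq_iff (by positivity)]
  ring

lemma L1_alg2 (K N Λ D : ℝ) (hK : 0 < K) (hN : 0 < N) (hΛ : 0 < Λ) :
    N * D / (0.001 / K * (N / Λ)) = Λ / (0.001 / K) * D := by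
  field_simp

open Classical in
theorem per_class_of
    (hconc : ∀ (δ ε : ℝ) (_ : 0 < δ) (_ : 0 < ε), ∃ η : ℝ, 0 < η ∧ η ≤ δ ∧ η ≤ 1 / 10 ∧
      ∃ w₀ : ℕ, ∀ w : ℕ, w₀ ≤ w → ∃ C X₀ : ℝ, 0 < C ∧ ∀ X P : ℝ, X₀ ≤ X → Rg C X P →
      ∀ a₀ b : ℕ, b.Coprime (primorial w) → ∀ (R c : ℝ) (v : ℕ → ℝ), Adm X δ R c v →
        ∑ a ∈ As (primorial w) a₀ X, (∑ p ∈ Ps (primorial w) b P, ft w X η R c v p a -
          ∑ p ∈ Ps (primorial w) b P, mw w X R c v p) ^ 2 ≤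
        ε * (X / (primorial w : ℝ)) *
            (((Ps (primorial w) b P).card : ℝ) * (Aw w * Real.log X)) ^ 2)
    (hpw : ∃ w₀ : ℕ, ∀ w : ℕ, w₀ ≤ w → ∀ δ : ℝ, 0 < δ → δ ≤ 1 / 10 → ∃ X₀ : ℝ,
      ∀ X : ℝ, X₀ ≤ X → ∀ p : ℕ, w < p → ∀ n : ℕ, 0 < n → Squarefree n →
      (n : ℝ) ≤ X ^ (1.002 : ℝ) → (∀ l : ℕ, l ∈ n.primeFactors → X ^ δ < (l : ℝ)) →
      4 ≤ n.primeFactors.card → ¬ p ∣ n →
      lam * Sg ((QX w X).erase p) (X ^ (0.166 : ℝ)) ((QX w X).filter (fun l => l ∣ n)) ^ 2 ≤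
        ∑ i, κe i * Ff ((QX w X).erase p) (X ^ (ρe i)) 0 (ve X δ i)
          ((QX w X).filter (fun l => l ∣ n)))
    (hfmm : ∀ (w : ℕ) (_ : 10 ≤ w) (c : ℝ) (_ : 0 ≤ c), ∃ C X₀ : ℝ, ∀ X : ℝ, X₀ ≤ X →
      ∀ p : ℕ, w < p → c * ((1 - 6 / w) * Aw w * (0.166 * Real.log X)) - C ≤
        mw w X (X ^ (0.166 : ℝ)) c (fun _ => 0) p)
    (hfmz : ∀ (w : ℕ) (_ : 10 ≤ w) (δ : ℝ) (_ : 0 < δ) (_ : δ ≤ 1 / 10),
      ∃ C X₀ : ℝ, ∀ X : ℝ, X₀ ≤ X → ∀ p : ℕ,
        mw w X (X ^ (ρe 0)) 0 (ve X δ 0) p ≤ (1 + 2 / w) * Aw w * (0.166 * Real.log X) + C)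
    (hfmp : ∀ (w : ℕ) (_ : 10 ≤ w) (δ : ℝ) (i : Fin 4) (_ : i ≠ 0),
      ∃ C X₀ : ℝ, ∀ X : ℝ, X₀ ≤ X → ∀ p : ℕ,
        mw w X (X ^ (ρe i)) 0 (ve X δ i) p ≤ (1 + 2 / w) * Aw w * (ρe i * Real.log X) *
          (Real.log (βe i / αe δ i) - (βe i - αe δ i) / 0.43) + C)
    (hsm : ∀ (w : ℕ) (_ : 10 ≤ w) (η : ℝ) (_ : 0 < η) (_ : η ≤ 1 / 10), ∃ X₀ : ℝ,
      ∀ X : ℝ, X₀ ≤ X → ∀ (a₀ : ℕ) (R : ℝ) (p : ℕ), 1 ≤ R → R ≤ X ^ (0.2 : ℝ) → p.Prime →
        ∑ a ∈ As (primorial w) a₀ X, fw w X R 0 (fun l => if (l : ℝ) ≤ X ^ η then 1 else 0) p a ≤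
          3 * η * (X / (primorial w : ℝ)) * (Aw w * Real.log X))
    (hGs : ∀ (w : ℕ) (_ : 10 ≤ w), ∃ X₀ : ℝ, ∀ X : ℝ, X₀ ≤ X → ∀ (Z : ℕ) (Q : Finset ℕ),
      Q ⊆ Qs w Z → ∀ R : ℝ, R ≤ X ^ (0.2 : ℝ) → Gs Q R ≤ Aw w * Real.log X)
    (hAt : ∀ (η X P : ℝ) (_ : 0 < η) (_ : 2 ≤ X) (_ : P ≤ X ^ (0.001 : ℝ)) (W a₀ b : ℕ)
      (a : ℕ) (_ : a ∈ As W a₀ X) (p : ℕ) (_ : p ∈ Ps W b P) (Q S : Finset ℕ)
      (_ : ∀ l ∈ Q, l.Prime) (_ : S ⊆ At Q p a) (_ : ∀ l ∈ S, X ^ η < (l : ℝ)),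
      (S.card : ℝ) ≤ 1.002 / η)
    (ε : ℝ) (hε : 0 < ε) : ∃ δ : ℝ, 0 < δ ∧ ∃ w : ℕ, 10 ≤ w ∧
    ∃ c C X₀ : ℝ, 0 < c ∧ 0 < C ∧ ∀ X P : ℝ, X₀ ≤ X → Rg C X P → ∀ a₀ b : ℕ,
    b.Coprime (primorial w) → (∀ l : ℕ, l.Prime → l ≤ w → ¬ (a₀ * b ^ 2 ≡ 1 [MOD l])) →
      ((((As (primorial w) a₀ X).filter (fun a => (((Gp a P (X ^ δ)).card : ℕ) : ℝ) <
        c * P / (Real.log P * Real.log X))).card : ℕ) : ℝ) ≤ ε * (X / (primorial w : ℝ)) := by
  -- parameters
  set δ : ℝ := min (1 / 10) (ε / 48000) with hδd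
  have hδ : 0 < δ := lt_min (by norm_num) (by positivity)
  have hδ1 : δ ≤ 1 / 10 := min_le_left _ _
  have hδ2 : δ ≤ ε / 48000 := min_le_right _ _
  set εc : ℝ := ε * (0.00001) ^ 2 / 40 with hεc
  have hεc0 : 0 < εc := by positivity
  obtain ⟨η, hη0, hηδ, hη1, w₁, hconc'⟩ := hconc δ εc hδ hεc0
  obtain ⟨w₂, hpw'⟩ := hpw
  set w : ℕ := max (max w₁ w₂) 2000 with hwd
  have hw1 : w₁ ≤ w := (le_max_left _ _).trans (le_max_left _ _)
  have hw2 : w₂ ≤ w := (le_max_right _ _).trans (le_max_left _ _)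
  have hw3 : 2000 ≤ w := le_max_right _ _
  have hw10 : 10 ≤ w := by omega
  obtain ⟨C₁, X₁, hC₁, hcc⟩ := hconc' w hw1
  obtain ⟨X₂, hpp⟩ := hpw' w hw2 δ hδ hδ1
  obtain ⟨Cm, Xm, hm⟩ := hfmm w hw10 lam (by unfold lam; norm_num)
  obtain ⟨Cz, Xz, hz⟩ := hfmz w hw10 δ hδ hδ1
  have hfi : ∃ (Ci : Fin 4 → ℝ) (Xi : ℝ), ∀ i : Fin 4, i ≠ 0 → ∀ X : ℝ, Xi ≤ X → ∀ p : ℕ,
      mw w X (X ^ (ρe i)) 0 (ve X δ i) p ≤ (1 + 2 / w) * Aw w * (ρe i * Real.log X) *
        (Real.log (βe i / αe δ i) - (βe i - αe δ i) / 0.43) + Ci i := by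
    obtain ⟨Ca, Xa, ha⟩ := hfmp w hw10 δ 1 (by decide)
    obtain ⟨Cb, Xb, hb⟩ := hfmp w hw10 δ 2 (by decide)
    obtain ⟨Cc, Xc, hc⟩ := hfmp w hw10 δ 3 (by decide)
    refine ⟨![0, Ca, Cb, Cc], max Xa (max Xb Xc), ?_⟩
    intro i hi X hX p
    have h1 : Xa ≤ X := (le_max_left _ _).trans hX
    have h2 : Xb ≤ X := (le_max_left _ _).trans ((le_max_right _ _).trans hX)
    have h3 : Xc ≤ X := (le_max_right _ _).trans ((le_max_right _ _).trans hX)
    fin_cases i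
    · exact absurd rfl hi
    · exact ha X h1 p
    · exact hb X h2 p
    · exact hc X h3 p
  obtain ⟨Ci, Xi, hfi'⟩ := hfi
  obtain ⟨Xs, hs⟩ := hsm w hw10 δ hδ hδ1
  obtain ⟨P₀, hP₀⟩ := Ps_lower w
  obtain ⟨Xg, hg⟩ := hGs w hw10
  set C : Fin 4 → ℝ := fun i => if i = 0 then Cz else Ci i with hCd
  set W : ℝ := (primorial w : ℝ) with hW
  have hW0 : 0 < W := by rw [hW]; exact_mod_cast primorial_pos w
  have hA0 := L1_Aw_pos w
  set K : ℝ := 2 * (4 : ℝ) ^ (1.002 / δ) with hK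
  have hK0 : 0 < K := by positivity
  set φW : ℝ := (Nat.totient (primorial w) : ℝ) with hφ
  have hφ0 : 0 < φW := by
    rw [hφ]; exact_mod_cast Nat.totient_pos.2 (primorial_pos w)
  have hev := L1_eventually C₁ ((Cm + ∑ i, κe i * C i) / 0.0008) (max P₀ 3) W (ε / 8) δ K (Aw w)
    hC₁ hW0 (by positivity) hδ hδ1 hK0 hA0
  obtain ⟨X₃, hX₃⟩ := eventually_atTop.1 hev
  refine ⟨δ, hδ, w, hw10, 0.0009 / K / (32 * φW) / Aw w, C₁,
    max (max (max X₁ X₂) (max Xm Xz)) (max (max Xi Xs) (max Xg X₃)), by positivity, hC₁, ?_⟩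
  intro X P hX hR a₀ b hb hab
  have hX1 : X₁ ≤ X := (le_max_left _ _).trans ((le_max_left _ _).trans ((le_max_left _ _).trans hX))
  have hX2 : X₂ ≤ X := (le_max_right _ _).trans ((le_max_left _ _).trans ((le_max_left _ _).trans hX))
  have hXm : Xm ≤ X := (le_max_left _ _).trans ((le_max_right _ _).trans ((le_max_left _ _).trans hX))
  have hXz : Xz ≤ X := (le_max_right _ _).trans ((le_max_right _ _).trans ((le_max_left _ _).trans hX))
  have hXi : Xi ≤ X := (le_max_left _ _).trans ((le_max_left _ _).trans ((le_max_right _ _).trans hX))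
  have hXs : Xs ≤ X := (le_max_right _ _).trans ((le_max_left _ _).trans ((le_max_right _ _).trans hX))
  have hXg : Xg ≤ X := (le_max_left _ _).trans ((le_max_right _ _).trans ((le_max_right _ _).trans hX))
  have hXe : X₃ ≤ X := (le_max_right _ _).trans ((le_max_right _ _).trans ((le_max_right _ _).trans hX))
  obtain ⟨hXtwo, hlogX, hP1, hΛ1, hrare⟩ := hX₃ X hXe
  obtain ⟨hRl, hRu⟩ := hR
  have hPP : max P₀ 3 ≤ P := hP1.trans hRl
  have hPP0 : P₀ ≤ P := (le_max_left _ _).trans hPP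
  have hP3 : 3 ≤ P := (le_max_right _ _).trans hPP
  have hX0 : 0 < X := by linarith
  have hlogP : 0 < Real.log P := Real.log_pos (by linarith)
  set Λ : ℝ := Aw w * Real.log X with hΛd
  have hΛ0 : 0 < Λ := by positivity
  set PS := Ps (primorial w) b P with hPS
  set AS := As (primorial w) a₀ X with hAS
  set N : ℝ := (PS.card : ℝ) with hNd
  have hNlow : P / (32 * φW * Real.log P) ≤ N := hP₀ P hPP0 b hb
  have hN0 : 0 < N := lt_of_lt_of_le (by positivity) hNlow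
  -- the first moments
  set μ₀ := ∑ p ∈ PS, mw w X (X ^ (0.166 : ℝ)) lam (fun _ => 0) p with hμ₀
  set μ : Fin 4 → ℝ := fun i => ∑ p ∈ PS, mw w X (X ^ (ρe i)) 0 (ve X δ i) p with hμ
  have hμineq : 0.004 * (N * Λ) ≤ μ₀ - ∑ i, κe i * μ i := by
    have hper : ∀ p ∈ PS, 0.004 * Λ ≤ mw w X (X ^ (0.166 : ℝ)) lam (fun _ => 0) p -
        ∑ i, κe i * mw w X (X ^ (ρe i)) 0 (ve X δ i) p := by
      intro p hp
      have hwp := (L1_prime_of_class hb hp).2.1
      apply L1_main_ineq w hw3 δ Λ _ Cm (fun i => mw w X (X ^ (ρe i)) 0 (ve X δ i) p) C hΛ0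
      · have h1 := hm X hXm p hwp
        have e : lam * ((1 - 6 / w) * Aw w * (0.166 * Real.log X)) =
            lam * ((1 - 6 / w) * (0.166 * Λ)) := by rw [hΛd]; ring
        rw [e] at h1
        exact h1
      · have h1 := hz X hXz p
        have e : (1 + 2 / w) * Aw w * (0.166 * Real.log X) = (1 + 2 / w) * (0.166 * Λ) := by
          rw [hΛd]; ring
        rw [e] at h1
        simpa [hCd] using h1
      · intro i hi
        have h1 := hfi' i hi X hXi p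
        have e : (1 + 2 / w) * Aw w * (ρe i * Real.log X) = (1 + 2 / w) * (ρe i * Λ) := by
          rw [hΛd]; ring
        rw [e] at h1
        simp only [hCd, if_neg hi]
        exact h1
      · rw [div_le_iff₀ (by norm_num)] at hΛ1
        linarith
    have h2 := sum_le_sum hper
    rw [sum_const, nsmul_eq_mul, sum_sub_distrib, sum_comm] at h2
    have e2 : ∑ i, ∑ p ∈ PS, κe i * mw w X (X ^ (ρe i)) 0 (ve X δ i) p = ∑ i, κe i * μ i := by
      refine sum_congr rfl fun i _ => ?_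
      rw [hμ, mul_sum]
    rw [e2] at h2
    calc 0.004 * (N * Λ) = N * (0.004 * Λ) := by ring
      _ ≤ _ := h2
  -- the exceptional sets
  set t : ℝ := 0.00001 * (N * Λ) with ht
  have ht0 : 0 < t := by positivity
  set Y₀ : ℕ → ℝ := fun a => ∑ p ∈ PS, ft w X η (X ^ (0.166 : ℝ)) lam (fun _ => 0) p a - μ₀ with hY₀
  set Y : Fin 4 → ℕ → ℝ := fun i a => ∑ p ∈ PS, ft w X η (X ^ (ρe i)) 0 (ve X δ i) p a - μ i with hY
  set Sm : ℕ → ℝ := fun a => 2 * ∑ p ∈ PS,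
    fw w X (X ^ (0.166 : ℝ)) 0 (fun l => if (l : ℝ) ≤ X ^ δ then 1 else 0) p a with hSm
  set B : ℕ → ℝ := fun a => ((PS.filter (fun p => L1_bad X δ p a)).card : ℝ) with hB
  have c0 : ((AS.filter (fun a => t ≤ |Y₀ a|)).card : ℝ) ≤ ε / 40 * (X / W) := by
    have h1 := hcc X P hX1 ⟨hRl, hRu⟩ a₀ b hb _ _ _ (L1_adm_main hXtwo)
    refine (L1_cheb AS Y₀ t _ ht0 h1).trans ?_
    exact le_of_eq (L1_alg ε (X / W) (N * Λ) (by positivity))
  have ci : ∀ i, ((AS.filter (fun a => t ≤ |Y i a|)).card : ℝ) ≤ ε / 40 * (X / W) := by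
    intro i
    have h1 := hcc X P hX1 ⟨hRl, hRu⟩ a₀ b hb _ _ _ (L1_adm_i hXtwo hδ hδ1 i)
    refine (L1_cheb AS (Y i) t _ ht0 h1).trans ?_
    exact le_of_eq (L1_alg ε (X / W) (N * Λ) (by positivity))
  have hSm0 : ∀ a ∈ AS, 0 ≤ Sm a := by
    intro a _
    have : 0 ≤ ∑ p ∈ PS, fw w X (X ^ (0.166 : ℝ)) 0
        (fun l => if (l : ℝ) ≤ X ^ δ then 1 else 0) p a :=
      sum_nonneg fun p _ => L1_Ff_nonneg _ _ _ le_rfl _ (fun l => by split_ifs <;> norm_num) _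
    simp only [hSm]
    positivity
  have cs : ((AS.filter (fun a => 0.001 * (N * Λ) ≤ Sm a)).card : ℝ) ≤ ε / 8 * (X / W) := by
    have h1 : ∑ a ∈ AS, Sm a ≤ 2 * (N * (3 * δ * (X / W) * Λ)) := by
      simp only [hSm]
      rw [← mul_sum, sum_comm]
      refine mul_le_mul_of_nonneg_left ?_ (by norm_num)
      calc ∑ p ∈ PS, ∑ a ∈ AS, fw w X (X ^ (0.166 : ℝ)) 0
            (fun l => if (l : ℝ) ≤ X ^ δ then 1 else 0) p a
          ≤ ∑ p ∈ PS, 3 * δ * (X / W) * Λ := by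
            refine sum_le_sum fun p hp => ?_
            exact hs X hXs a₀ _ p (Real.one_le_rpow (by linarith) (by norm_num))
              (Real.rpow_le_rpow_of_exponent_le (by linarith) (by norm_num))
              (L1_prime_of_class hb hp).1
        _ = N * (3 * δ * (X / W) * Λ) := by rw [sum_const, nsmul_eq_mul]
    refine (L1_markov AS Sm hSm0 _ _ (by positivity) h1).trans ?_
    rw [div_le_iff₀ (by positivity)]
    have h2 : 0 ≤ X / W * (N * Λ) := by positivity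
    calc 2 * (N * (3 * δ * (X / W) * Λ)) = 6 * δ * (X / W * (N * Λ)) := by ring
      _ ≤ 6 * (ε / 48000) * (X / W * (N * Λ)) := by
          refine mul_le_mul_of_nonneg_right ?_ h2
          linarith
      _ = ε / 8 * (X / W) * (0.001 * (N * Λ)) := by ring
  have cb : ((AS.filter (fun a => 0.001 / K * (N / Λ) ≤ B a)).card : ℝ) ≤ ε / 8 * (X / W) := by
    have h1 : ∑ a ∈ AS, B a ≤ N * (2 * X / X ^ δ + X ^ (0.501 : ℝ)) := by
      have e1 : ∑ a ∈ AS, B a = ∑ p ∈ PS, ((AS.filter (fun a => L1_bad X δ p a)).card : ℝ) := by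
        simp only [hB]
        have e2 : ∀ a ∈ AS, ((PS.filter (fun p => L1_bad X δ p a)).card : ℝ) =
            ∑ p ∈ PS, if L1_bad X δ p a then (1 : ℝ) else 0 := fun a _ => by
          rw [sum_boole]
        have e3 : ∀ p ∈ PS, ((AS.filter (fun a => L1_bad X δ p a)).card : ℝ) =
            ∑ a ∈ AS, if L1_bad X δ p a then (1 : ℝ) else 0 := fun p _ => by
          rw [sum_boole]
        rw [sum_congr rfl e2, sum_congr rfl e3, sum_comm]
      rw [e1]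
      calc ∑ p ∈ PS, ((AS.filter (fun a => L1_bad X δ p a)).card : ℝ)
          ≤ ∑ p ∈ PS, (2 * X / X ^ δ + X ^ (0.501 : ℝ)) := by
            refine sum_le_sum fun p hp => ?_
            obtain ⟨hpr, _, hpP⟩ := L1_prime_of_class hb hp
            exact L1_bad_count (primorial w) a₀ X δ P hXtwo hδ hRu p hpr hpP
        _ = _ := by rw [sum_const, nsmul_eq_mul]
    refine (L1_markov AS B (fun a _ => Nat.cast_nonneg _) _ _ (by positivity) h1).trans ?_
    exact le_trans (le_of_eq (L1_alg2 K N Λ _ hK0 hN0 hΛ0)) hrare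
  -- the inclusion
  have hsub : (AS.filter (fun a => (((Gp a P (X ^ δ)).card : ℕ) : ℝ) <
      0.0009 / K / (32 * φW) / Aw w * P / (Real.log P * Real.log X))) ⊆
      (((AS.filter (fun a => t ≤ |Y₀ a|)) ∪
      (univ : Finset (Fin 4)).biUnion (fun i => AS.filter (fun a => t ≤ |Y i a|))) ∪
      (AS.filter (fun a => 0.001 * (N * Λ) ≤ Sm a))) ∪
      (AS.filter (fun a => 0.001 / K * (N / Λ) ≤ B a)) := by
    intro a ha
    rw [mem_filter] at ha
    obtain ⟨haAS, haG⟩ := ha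
    by_contra hcon
    rw [mem_union, mem_union, mem_union, mem_biUnion] at hcon
    push Not at hcon
    obtain ⟨⟨⟨n0, n1⟩, n2⟩, n3⟩ := hcon
    have g0 : |Y₀ a| < t := by
      by_contra h
      exact n0 (mem_filter.2 ⟨haAS, not_lt.1 h⟩)
    have gi : ∀ i, |Y i a| < t := by
      intro i
      by_contra h
      exact n1 i (mem_univ i) (mem_filter.2 ⟨haAS, not_lt.1 h⟩)
    have gs : Sm a < 0.001 * (N * Λ) := by
      by_contra h
      exact n2 (mem_filter.2 ⟨haAS, not_lt.1 h⟩)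
    have gb : B a < 0.001 / K * (N / Λ) := by
      by_contra h
      exact n3 (mem_filter.2 ⟨haAS, not_lt.1 h⟩)
    have hpt : ∀ p ∈ PS, L1_ws w X δ η p a ≤ (K * Λ ^ 2) *
        ((if p ∈ Gp a P (X ^ δ) then 1 else 0) + (if L1_bad X δ p a then 1 else 0)) := by
      intro p hp
      have h1 := L1_point w X δ η P hXtwo hδ hδ1 hηδ hRu Λ (hpp X hX2)
        (fun p => hg X hXg _ _ (erase_subset _ _) _
          (Real.rpow_le_rpow_of_exponent_le (by linarith) (by norm_num)))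
        (fun W' a' b' a'' h1 p'' h2 Q S h3 h4 h5 => hAt δ X P hδ hXtwo hRu W' a' b' a'' h1 p'' h2
          Q S h3 h4 h5) a₀ b hb hab a haAS p hp
      exact h1
    have h2 := L1_good w X δ η P Λ N (0.001 / K) K b a rfl μ₀ μ hΛ0 hK0 rfl hμineq g0 gi gs gb hpt
    have h3 : 0.0009 / K / (32 * φW) / Aw w * P / (Real.log P * Real.log X) ≤
        0.0009 / K * (N / Λ) := by
      have e : 0.0009 / K / (32 * φW) / Aw w * P / (Real.log P * Real.log X) =
          0.0009 / K * (P / (32 * φW * Real.log P) / Λ) := by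
        rw [hΛd]
        field_simp
      rw [e]
      refine mul_le_mul_of_nonneg_left ?_ (by positivity)
      exact div_le_div_of_nonneg_right hNlow hΛ0.le
    linarith
  have hcard := card_le_card hsub
  have hU : (((((AS.filter (fun a => t ≤ |Y₀ a|)) ∪
      (univ : Finset (Fin 4)).biUnion (fun i => AS.filter (fun a => t ≤ |Y i a|))) ∪
      (AS.filter (fun a => 0.001 * (N * Λ) ≤ Sm a))) ∪
      (AS.filter (fun a => 0.001 / K * (N / Λ) ≤ B a))).card : ℝ) ≤ ε * (X / W) := by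
    have u1 := card_union_le ((AS.filter (fun a => t ≤ |Y₀ a|)) ∪
      (univ : Finset (Fin 4)).biUnion (fun i => AS.filter (fun a => t ≤ |Y i a|)) ∪
      (AS.filter (fun a => 0.001 * (N * Λ) ≤ Sm a))) (AS.filter (fun a => 0.001 / K * (N / Λ) ≤ B a))
    have u2 := card_union_le ((AS.filter (fun a => t ≤ |Y₀ a|)) ∪
      (univ : Finset (Fin 4)).biUnion (fun i => AS.filter (fun a => t ≤ |Y i a|)))
      (AS.filter (fun a => 0.001 * (N * Λ) ≤ Sm a))
    have u3 := card_union_le (AS.filter (fun a => t ≤ |Y₀ a|))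
      ((univ : Finset (Fin 4)).biUnion (fun i => AS.filter (fun a => t ≤ |Y i a|)))
    have u4 : ((((univ : Finset (Fin 4)).biUnion
        (fun i => AS.filter (fun a => t ≤ |Y i a|))).card : ℕ) : ℝ) ≤ 4 * (ε / 40 * (X / W)) := by
      have u5 : ((univ : Finset (Fin 4)).biUnion
        (fun i => AS.filter (fun a => t ≤ |Y i a|))).card ≤
        ∑ i : Fin 4, (AS.filter (fun a => t ≤ |Y i a|)).card := card_biUnion_le
      calc ((((univ : Finset (Fin 4)).biUnion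
        (fun i => AS.filter (fun a => t ≤ |Y i a|))).card : ℕ) : ℝ)
          ≤ ((∑ i : Fin 4, (AS.filter (fun a => t ≤ |Y i a|)).card : ℕ) : ℝ) := by exact_mod_cast u5
        _ = ∑ i : Fin 4, ((AS.filter (fun a => t ≤ |Y i a|)).card : ℝ) := by push_cast; rfl
        _ ≤ ∑ i : Fin 4, ε / 40 * (X / W) := sum_le_sum fun i _ => ci i
        _ = 4 * (ε / 40 * (X / W)) := by
            rw [sum_const, card_univ, Fintype.card_fin, nsmul_eq_mul]
            push_cast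
            ring
    have u1' : (((((AS.filter (fun a => t ≤ |Y₀ a|)) ∪
      (univ : Finset (Fin 4)).biUnion (fun i => AS.filter (fun a => t ≤ |Y i a|))) ∪
      (AS.filter (fun a => 0.001 * (N * Λ) ≤ Sm a))) ∪
      (AS.filter (fun a => 0.001 / K * (N / Λ) ≤ B a))).card : ℝ) ≤
      (((AS.filter (fun a => t ≤ |Y₀ a|)).card : ℝ) + ((((univ : Finset (Fin 4)).biUnion
        (fun i => AS.filter (fun a => t ≤ |Y i a|))).card : ℕ) : ℝ) +
        ((AS.filter (fun a => 0.001 * (N * Λ) ≤ Sm a)).card : ℝ)) +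
        ((AS.filter (fun a => 0.001 / K * (N / Λ) ≤ B a)).card : ℝ) := by
      exact_mod_cast u1.trans (Nat.add_le_add_right (u2.trans (Nat.add_le_add_right u3 _)) _)
    refine u1'.trans ?_
    have hXW : 0 ≤ X / W := by positivity
    have : ε / 40 * (X / W) + 4 * (ε / 40 * (X / W)) + ε / 8 * (X / W) + ε / 8 * (X / W) ≤
        ε * (X / W) := by nlinarith [mul_nonneg hε.le hXW]
    linarith
  calc _ ≤ _ := by exact_mod_cast hcard
    _ ≤ _ := hU

end Pool.Agent.helper71.AA
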