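import Pool.Agent.helper71.AA.L1a

/-! # Project AA, module L1: the numbers which are not squarefree -/

namespace Pool.Agent.helper71.AA

open Finset

lemma L1_count (m c N : ℕ) (hm : 0 < m) :
    (((Icc 1 N).filter (fun a => a ≡ c [MOD m])).card : ℝ) ≤ N / m + 1 := by
  have h1 : Icc 1 N = Ioc 0 N := by ext x; simp [Nat.lt_iff_add_one_le]
  have h2 := Nat.Ioc_filter_modEq_card 0 N hm c
  rw [h1]
  have hm0 : (0 : ℝ) < m := by exact_mod_cast hm
  have h3 : (((Ioc 0 N).filter (fun a => a ≡ c [MOD m])).card : ℤ) ≤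
      ⌊((N : ℚ) - c) / m⌋ - ⌊((0 : ℚ) - c) / m⌋ ∨
      (((Ioc 0 N).filter (fun a => a ≡ c [MOD m])).card : ℤ) ≤ 0 := by
    rw [h2]
    push_cast
    rcases le_total (⌊((N : ℚ) - c) / m⌋ - ⌊((0 : ℚ) - c) / m⌋) 0 with h | h
    · right
      rw [max_le_iff]
      exact ⟨by exact_mod_cast h, le_rfl⟩
    · left
      rw [max_le_iff]
      exact ⟨le_rfl, by exact_mod_cast h⟩
  rcases h3 with h3 | h3
  · have h4 : (((Ioc 0 N).filter (fun a => a ≡ c [MOD m])).card : ℝ) ≤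
        ((⌊((N : ℚ) - c) / m⌋ : ℤ) : ℝ) - ((⌊((0 : ℚ) - c) / m⌋ : ℤ) : ℝ) := by
      exact_mod_cast h3
    have h5 : ((⌊((N : ℚ) - c) / m⌋ : ℤ) : ℝ) ≤ ((N : ℝ) - c) / m := by
      have := Int.floor_le (((N : ℚ) - c) / m)
      have h6 : (((⌊((N : ℚ) - c) / m⌋ : ℤ) : ℚ) : ℝ) ≤ ((((N : ℚ) - c) / m : ℚ) : ℝ) := by
        exact_mod_cast this
      push_cast at h6
      exact h6
    have h7 : ((0 : ℝ) - c) / m - 1 ≤ ((⌊((0 : ℚ) - c) / m⌋ : ℤ) : ℝ) := by
      have := Int.sub_one_lt_floor (((0 : ℚ) - c) / m)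
      have h8 : ((((0 : ℚ) - c) / m - 1 : ℚ) : ℝ) ≤ (((⌊((0 : ℚ) - c) / m⌋ : ℤ) : ℚ) : ℝ) := by
        exact_mod_cast this.le
      push_cast at h8
      exact h8
    have h9 : ((N : ℝ) - c) / m - (((0 : ℝ) - c) / m - 1) = N / m + 1 := by ring
    linarith
  · have h4 : (((Ioc 0 N).filter (fun a => a ≡ c [MOD m])).card : ℝ) ≤ 0 := by exact_mod_cast h3
    have : (0 : ℝ) ≤ N / m + 1 := by positivity
    linarith

lemma L1_sq_count (N l p : ℕ) (hl : l.Prime) (hp : p.Prime) :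
    (((Icc 1 N).filter (fun a => l ^ 2 ∣ a * p ^ 2 - 1)).card : ℝ) ≤ N / (l : ℝ) ^ 2 + 1 := by
  set S := (Icc 1 N).filter (fun a => l ^ 2 ∣ a * p ^ 2 - 1) with hS
  rcases S.eq_empty_or_nonempty with h | ⟨c, hc⟩
  · rw [h, card_empty]
    push_cast
    positivity
  · have hone : ∀ a ∈ S, a * p ^ 2 ≡ 1 [MOD l ^ 2] := by
      intro a ha
      rw [hS, mem_filter, mem_Icc] at ha
      have h2 : 1 ≤ a * p ^ 2 := Nat.one_le_iff_ne_zero.2 (by
        have := hp.pos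
        have := ha.1.1
        positivity)
      exact ((Nat.modEq_iff_dvd' h2).2 ha.2).symm
    have hcop : Nat.Coprime (l ^ 2) (p ^ 2) := by
      apply Nat.Coprime.pow
      rw [Nat.coprime_primes hl hp]
      rintro rfl
      rw [hS, mem_filter, mem_Icc] at hc
      exact L1_not_dvd hc.1.1 hp ((dvd_pow_self l two_ne_zero).trans hc.2)
    have hsub : S ⊆ (Icc 1 N).filter (fun a => a ≡ c [MOD l ^ 2]) := by
      intro a ha
      have h1 := (hone a ha).trans (hone c hc).symm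
      have h2 := Nat.ModEq.cancel_right_of_coprime hcop h1
      rw [mem_filter]
      exact ⟨(mem_filter.1 ha).1, h2⟩
    have h3 := L1_count (l ^ 2) c N (pow_pos hl.pos 2)
    calc (S.card : ℝ) ≤ (((Icc 1 N).filter (fun a => a ≡ c [MOD l ^ 2])).card : ℝ) := by
          exact_mod_cast card_le_card hsub
      _ ≤ _ := by
          push_cast at h3
          exact h3

lemma L1_bad_count (W a₀ : ℕ) (X δ P : ℝ) (hX : 2 ≤ X) (hδ : 0 < δ) (hP : P ≤ X ^ (0.001 : ℝ))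
    (p : ℕ) (hp : p.Prime) (hpP : (p : ℝ) ≤ P) [DecidablePred (fun a => L1_bad X δ p a)] :
    (((As W a₀ X).filter (fun a => L1_bad X δ p a)).card : ℝ) ≤
      2 * X / X ^ δ + X ^ (0.501 : ℝ) := by
  have hX0 : 0 < X := by linarith
  have hX1 : 1 < X := by linarith
  set y := ⌊X ^ δ⌋₊ with hy
  set L := ⌊X ^ (0.501 : ℝ)⌋₊ with hL
  have hXδ : 1 ≤ X ^ δ := Real.one_le_rpow hX1.le hδ.le
  have hy1 : 1 ≤ y := (Nat.one_le_floor_iff _).2 hXδ
  have hyX : X ^ δ / 2 ≤ y := by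
    have h1 := Nat.lt_floor_add_one (X ^ δ)
    rw [← hy] at h1
    have h2 : (1 : ℝ) ≤ y := by exact_mod_cast hy1
    linarith
  have hLX : (L : ℝ) ≤ X ^ (0.501 : ℝ) := Nat.floor_le (by positivity)
  have hsub : (As W a₀ X).filter (fun a => L1_bad X δ p a) ⊆
      ((Ioc y L).filter Nat.Prime).biUnion
        (fun l => (Icc 1 ⌊X⌋₊).filter (fun a => l ^ 2 ∣ a * p ^ 2 - 1)) := by
    intro a ha
    rw [mem_filter] at ha
    obtain ⟨ha1, hbad⟩ := ha
    obtain ⟨hn0, hnX⟩ := L1_n_bound hX1 hP ha1 hp.two_le hpP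
    unfold L1_bad at hbad
    obtain ⟨hns, hbig⟩ := hbad
    rw [Nat.squarefree_iff_prime_squarefree] at hns
    push Not at hns
    obtain ⟨l, hl, hll⟩ := hns
    have hlmem : l ∈ (a * p ^ 2 - 1).primeFactors :=
      Nat.mem_primeFactors.2 ⟨hl, (Dvd.intro l rfl).trans hll, hn0.ne'⟩
    have hlX := hbig l hlmem
    have hle : l * l ≤ a * p ^ 2 - 1 := Nat.le_of_dvd hn0 hll
    rw [mem_biUnion]
    refine ⟨l, ?_, ?_⟩
    · rw [mem_filter, mem_Ioc]
      refine ⟨⟨Nat.floor_lt' hl.pos.ne' |>.2 hlX, ?_⟩, hl⟩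
      rw [hL]
      apply Nat.le_floor
      have h1 : (l : ℝ) ^ 2 ≤ (X ^ (0.501 : ℝ)) ^ 2 := by
        calc (l : ℝ) ^ 2 = ((l * l : ℕ) : ℝ) := by push_cast; ring
          _ ≤ ((a * p ^ 2 - 1 : ℕ) : ℝ) := by exact_mod_cast hle
          _ ≤ X ^ (1.002 : ℝ) := hnX
          _ = (X ^ (0.501 : ℝ)) ^ 2 := by
              rw [← Real.rpow_natCast, ← Real.rpow_mul hX0.le]
              norm_num
      exact le_of_pow_le_pow_left₀ two_ne_zero (by positivity) h1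
    · rw [mem_filter]
      unfold As at ha1
      exact ⟨(mem_filter.1 ha1).1, by rw [sq]; exact hll⟩
  have h1 : (((As W a₀ X).filter (fun a => L1_bad X δ p a)).card : ℝ) ≤
      ∑ l ∈ (Ioc y L).filter Nat.Prime, (X / (l : ℝ) ^ 2 + 1) := by
    calc (((As W a₀ X).filter (fun a => L1_bad X δ p a)).card : ℝ)
        ≤ ((∑ l ∈ (Ioc y L).filter Nat.Prime,
          ((Icc 1 ⌊X⌋₊).filter (fun a => l ^ 2 ∣ a * p ^ 2 - 1)).card : ℕ) : ℝ) := by
          exact_mod_cast (card_le_card hsub).trans card_biUnion_le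
      _ = ∑ l ∈ (Ioc y L).filter Nat.Prime,
          (((Icc 1 ⌊X⌋₊).filter (fun a => l ^ 2 ∣ a * p ^ 2 - 1)).card : ℝ) := by push_cast; rfl
      _ ≤ _ := by
          refine sum_le_sum fun l hl => ?_
          have hlp := (mem_filter.1 hl).2
          refine (L1_sq_count ⌊X⌋₊ l p hlp hp).trans ?_
          have h2 : (⌊X⌋₊ : ℝ) ≤ X := Nat.floor_le hX0.le
          have h3 : (0 : ℝ) < (l : ℝ) ^ 2 := by
            have := hlp.pos
            positivity
          have h4 : (⌊X⌋₊ : ℝ) / (l : ℝ) ^ 2 ≤ X / (l : ℝ) ^ 2 :=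
            div_le_div_of_nonneg_right h2 h3.le
          linarith
  refine h1.trans ?_
  rw [sum_add_distrib, sum_const, nsmul_eq_mul, mul_one]
  have h5 : (((Ioc y L).filter Nat.Prime).card : ℝ) ≤ X ^ (0.501 : ℝ) := by
    refine le_trans ?_ hLX
    have : ((Ioc y L).filter Nat.Prime).card ≤ L := by
      refine (card_le_card (filter_subset _ _)).trans ?_
      rw [Nat.card_Ioc]
      omega
    exact_mod_cast this
  have h6 : ∑ l ∈ (Ioc y L).filter Nat.Prime, X / (l : ℝ) ^ 2 ≤ 2 * X / X ^ δ := by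
    calc ∑ l ∈ (Ioc y L).filter Nat.Prime, X / (l : ℝ) ^ 2
        ≤ ∑ l ∈ Ioc y L, X / (l : ℝ) ^ 2 :=
          sum_le_sum_of_subset_of_nonneg (filter_subset _ _) fun l _ _ => by positivity
      _ = X * ∑ l ∈ Ioc y L, ((l : ℝ) ^ 2)⁻¹ := by
          rw [mul_sum]
          exact sum_congr rfl fun l _ => by rw [div_eq_mul_inv]
      _ ≤ X * (y : ℝ)⁻¹ := by
          refine mul_le_mul_of_nonneg_left ?_ hX0.le
          by_cases hyL : y ≤ L
          · have h7 := sum_Ioc_inv_sq_le_sub (α := ℝ) (by omega : y ≠ 0) hyL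
            have h8 : (0 : ℝ) ≤ (L : ℝ)⁻¹ := by positivity
            linarith
          · rw [Ioc_eq_empty_of_le (by omega), sum_empty]
            positivity
      _ ≤ X * (X ^ δ / 2)⁻¹ := by
          refine mul_le_mul_of_nonneg_left ?_ hX0.le
          exact inv_anti₀ (by positivity) hyX
      _ = 2 * X / X ^ δ := by
          field_simp
  linarith

lemma L1_cheb (s : Finset ℕ) (f : ℕ → ℝ) (t V : ℝ) (ht : 0 < t) (h : ∑ a ∈ s, f a ^ 2 ≤ V) :
    ((s.filter (fun a => t ≤ |f a|)).card : ℝ) ≤ V / t ^ 2 := by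
  rw [le_div_iff₀ (by positivity)]
  calc ((s.filter (fun a => t ≤ |f a|)).card : ℝ) * t ^ 2
      = ∑ a ∈ s.filter (fun a => t ≤ |f a|), t ^ 2 := by rw [sum_const, nsmul_eq_mul]
    _ ≤ ∑ a ∈ s.filter (fun a => t ≤ |f a|), f a ^ 2 := by
        refine sum_le_sum fun a ha => ?_
        rw [← sq_abs (f a)]
        exact pow_le_pow_left₀ ht.le (mem_filter.1 ha).2 2
    _ ≤ ∑ a ∈ s, f a ^ 2 :=
        sum_le_sum_of_subset_of_nonneg (filter_subset _ _) fun a _ _ => sq_nonneg _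
    _ ≤ V := h

lemma L1_markov (s : Finset ℕ) (f : ℕ → ℝ) (hf : ∀ a ∈ s, 0 ≤ f a) (t V : ℝ) (ht : 0 < t)
    (h : ∑ a ∈ s, f a ≤ V) : ((s.filter (fun a => t ≤ f a)).card : ℝ) ≤ V / t := by
  rw [le_div_iff₀ ht]
  calc ((s.filter (fun a => t ≤ f a)).card : ℝ) * t
      = ∑ a ∈ s.filter (fun a => t ≤ f a), t := by rw [sum_const, nsmul_eq_mul]
    _ ≤ ∑ a ∈ s.filter (fun a => t ≤ f a), f a :=
        sum_le_sum fun a ha => (mem_filter.1 ha).2
    _ ≤ ∑ a ∈ s, f a :=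
        sum_le_sum_of_subset_of_nonneg (filter_subset _ _) fun a ha _ => hf a ha
    _ ≤ V := h

end Pool.Agent.helper71.AA
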