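import Pool.Agent.helper71.AA.M0

/-! # Project AA, module U1: upper bound for the average number of rough values -/

namespace Pool.Agent.helper71.AA

open Finset Filter

/-- for a fixed prime `p` -/
theorem U1_one (δ : ℝ) (hδ : 0 < δ) : ∃ C X₀ : ℝ, 0 < C ∧ ∀ X : ℝ, X₀ ≤ X → ∀ p : ℕ, p.Prime →
    ((((Icc 1 ⌊X⌋₊).filter (fun a => ∀ l : ℕ, l ∈ (a * p ^ 2 - 1).primeFactors →
      X ^ δ < (l : ℝ))).card : ℕ) : ℝ) ≤ C * X / Real.log X := by
  set ρ : ℝ := min δ 0.2 with hρ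
  have hρ0 : 0 < ρ := lt_min hδ (by norm_num)
  have hρδ : ρ ≤ δ := min_le_left _ _
  have hρ2 : ρ ≤ 0.2 := min_le_right _ _
  obtain ⟨C₁, hC₁, hG⟩ := Gs_lower 10 le_rfl
  obtain ⟨X₁, hmass⟩ := mass_le
  have hA := L1_Aw_pos 10
  set κ : ℝ := (1 - 6 / (10 : ℕ)) * Aw 10 * ρ / 2 with hκ
  have hκ0 : 0 < κ := by
    rw [hκ]
    have : (0 : ℝ) < 1 - 6 / (10 : ℕ) := by norm_num
    positivity
  have e1 : ∀ᶠ X : ℝ in atTop, 2 ≤ X := eventually_ge_atTop 2
  have e2 : ∀ᶠ X : ℝ in atTop, C₁ / κ ≤ Real.log X := Real.tendsto_log_atTop.eventually_ge_atTop _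
  have e3 : ∀ᶠ X : ℝ in atTop, 1 ≤ Real.log X := Real.tendsto_log_atTop.eventually_ge_atTop 1
  have e4 : ∀ᶠ X : ℝ in atTop, 2 ≤ X ^ (0.23 : ℝ) :=
    (tendsto_rpow_atTop (by norm_num)).eventually_ge_atTop 2
  have e5 : ∀ᶠ X : ℝ in atTop, X₁ ≤ X := eventually_ge_atTop _
  obtain ⟨X₀, hX₀⟩ := eventually_atTop.1 (e1.and (e2.and (e3.and (e4.and e5))))
  refine ⟨1 / κ + 1 / κ ^ 2, X₀, by positivity, ?_⟩
  intro X hX p hp
  obtain ⟨hX2, hlog1, hlog, hXbig, hX1⟩ := hX₀ X hX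
  have hXpos : 0 < X := by linarith
  have hXone : 1 ≤ X := by linarith
  set Q := QX 10 X with hQ
  have hQs : Q = Qs 10 ⌊X ^ (0.43 : ℝ)⌋₊ := rfl
  have hQp : ∀ l ∈ Q, l.Prime ∧ l.Coprime 1 := by
    intro l hl
    rw [hQs] at hl
    unfold Qs at hl
    exact ⟨(mem_filter.1 hl).2, Nat.coprime_one_right l⟩
  have hQ2 : ∀ l ∈ Q.erase p, 2 ≤ l := fun l hl => (hQp l (mem_of_mem_erase hl)).1.two_le
  set R := X ^ ρ with hR
  have hR1 : 1 ≤ R := Real.one_le_rpow hXone hρ0.le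
  set G := Gs (Q.erase p) R with hGd
  -- lower bound for G
  have hZ : R ≤ ((⌊X ^ (0.43 : ℝ)⌋₊ : ℕ) : ℝ) := by
    have h1 : X ^ (0.43 : ℝ) < ((⌊X ^ (0.43 : ℝ)⌋₊ : ℕ) : ℝ) + 1 := Nat.lt_floor_add_one _
    have h2 : X ^ (0.43 : ℝ) = X ^ (0.2 : ℝ) * X ^ (0.23 : ℝ) := by
      rw [← Real.rpow_add hXpos]; norm_num
    have h3 : R ≤ X ^ (0.2 : ℝ) := Real.rpow_le_rpow_of_exponent_le hXone hρ2
    have h4 : 1 ≤ X ^ (0.2 : ℝ) := Real.one_le_rpow hXone (by norm_num)
    nlinarith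
  have hGlow : κ * Real.log X ≤ G := by
    have h1 : ∀ q g : ℕ, 10 < q → 10 < g → 2 * κ * Real.log X - C₁ ≤
        Gs ((Q.erase q).erase g) R := by
      intro q g hq hg
      have h2 := hG ⌊X ^ (0.43 : ℝ)⌋₊ q g hq hg R 1 le_rfl hR1 hZ
      have h3 : 0 ≤ Gs (((Qs 10 ⌊X ^ (0.43 : ℝ)⌋₊).erase q).erase g) 1 := by
        unfold Gs
        refine sum_nonneg fun K hK => ?_
        rw [S1_mem_Sub] at hK
        have := S1_ph_pos fun l hl => (hQp l (mem_of_mem_erase (mem_of_mem_erase (hK.1 hl)))).1.two_le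
        positivity
      have h4 : (1 - 6 / ((10 : ℕ) : ℝ)) * Aw 10 * Real.log (R / 1) = 2 * κ * Real.log X := by
        rw [div_one, hR, Real.log_rpow hXpos, hκ]
        ring
      rw [h4] at h2
      rw [hQs]
      linarith
    have h5 : 2 * κ * Real.log X - C₁ ≤ G := by
      by_cases hp10 : 10 < p
      · have := h1 p p hp10 hp10
        rw [erase_idem] at this
        exact this
      · set t := ⌊X ^ (0.43 : ℝ)⌋₊ + 11 with ht
        have htQ : t ∉ Q := by
          rw [hQs]; unfold Qs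
          rw [mem_filter, mem_Ioc]
          omega
        have hpQ : p ∉ Q := by
          rw [hQs]; unfold Qs
          rw [mem_filter, mem_Ioc]
          omega
        have := h1 t t (by omega) (by omega)
        rw [erase_idem, erase_eq_of_notMem htQ] at this
        rw [hGd, erase_eq_of_notMem hpQ]
        exact this
    rw [div_le_iff₀ hκ0] at hlog1
    nlinarith
  have hG0 : 0 < G := lt_of_lt_of_le (by positivity) hGlow
  -- the average of the square
  obtain ⟨ξ, hξ, hξm⟩ := exists_Rep 10 ⌊X ^ (0.43 : ℝ)⌋₊ (by norm_num) (Q.erase p)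
    (erase_subset _ _) R 1 hR1 zero_le_one (fun _ => 0) (fun _ => le_rfl)
  have hadm : Adm X δ R 1 (fun _ => 0) := by
    refine ⟨hR1, ?_, zero_le_one, by norm_num, fun l => ⟨le_rfl, zero_le_one⟩,
      fun l h => absurd rfl h⟩
    exact Real.rpow_le_rpow_of_exponent_le hXone hρ2
  have hm := hξm.trans (hmass X hX1 δ R 1 (fun _ => 0) hadm (Q.erase p))
  have hsum := mean_sum 1 0 one_pos Q hQp p hp _ ξ hξ X hXpos.le
  have hEx : Ex (Q.erase p) (Ff (Q.erase p) R 1 (fun _ => 0)) = G := by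
    rw [hGd, ← Ex_Sg_empty (Q.erase p) hQ2 R]
    apply Ex_congr
    intro A _
    unfold Ff Vf
    simp
  rw [hEx] at hsum
  have hup : ∑ a ∈ As 1 0 X, Ff (Q.erase p) R 1 (fun _ => 0) (At Q p a) ≤
      X * G + X ^ (0.499 : ℝ) := by
    have h1 := (abs_le.1 hsum).2
    rw [Nat.cast_one, div_one] at h1
    linarith
  -- rough numbers
  set S := (Icc 1 ⌊X⌋₊).filter (fun a => ∀ l : ℕ, l ∈ (a * p ^ 2 - 1).primeFactors →
      X ^ δ < (l : ℝ)) with hS
  have hlow : (S.card : ℝ) * G ^ 2 ≤ ∑ a ∈ As 1 0 X, Ff (Q.erase p) R 1 (fun _ => 0) (At Q p a) := by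
    have hSsub : S ⊆ As 1 0 X := by
      intro a ha
      unfold As
      rw [mem_filter]
      exact ⟨(mem_filter.1 ha).1, Nat.modEq_one⟩
    calc (S.card : ℝ) * G ^ 2 = ∑ a ∈ S, G ^ 2 := by rw [sum_const, nsmul_eq_mul]
      _ ≤ ∑ a ∈ S, Ff (Q.erase p) R 1 (fun _ => 0) (At Q p a) := by
          refine sum_le_sum fun a ha => ?_
          rw [hS, mem_filter, mem_Icc] at ha
          obtain ⟨⟨ha1, ha2⟩, hrough⟩ := ha
          have hnot := L1_not_dvd ha1 hp
          have hn0 : a * p ^ 2 - 1 ≠ 0 := by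
            have h1 : 4 ≤ a * p ^ 2 := by nlinarith [Nat.pow_le_pow_left hp.two_le 2]
            omega
          have hsubA : At Q p a ⊆ Q.erase p := by
            intro l hl
            unfold At at hl
            rw [mem_filter] at hl
            rw [mem_erase]
            exact ⟨fun h => hnot (h ▸ hl.2), hl.1⟩
          have hbig : ∀ l ∈ At Q p a, R < (l : ℝ) := by
            intro l hl
            unfold At at hl
            rw [mem_filter] at hl
            refine lt_of_le_of_lt ?_ (hrough l (Nat.mem_primeFactors.2 ⟨(hQp l hl.1).1, hl.2, hn0⟩))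
            exact Real.rpow_le_rpow_of_exponent_le hXone hρδ
          unfold Ff Vf
          rw [Sg_big (Q.erase p) (At Q p a) hsubA hQ2 R hbig]
          simp
          rfl
      _ ≤ _ := by
          refine sum_le_sum_of_subset_of_nonneg hSsub fun a _ _ => ?_
          exact L1_Ff_nonneg _ _ _ zero_le_one _ (fun _ => le_rfl) _
  have hfin : (S.card : ℝ) * G ^ 2 ≤ X * G + X ^ (0.499 : ℝ) := hlow.trans hup
  have h6 : X ^ (0.499 : ℝ) ≤ X := by
    calc X ^ (0.499 : ℝ) ≤ X ^ (1 : ℝ) := Real.rpow_le_rpow_of_exponent_le hXone (by norm_num)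
      _ = X := Real.rpow_one X
  have h7 : (S.card : ℝ) ≤ X / G + X / G ^ 2 := by
    have hfin' := (le_div_iff₀ (show (0 : ℝ) < G ^ 2 by positivity)).2 hfin
    calc (S.card : ℝ) ≤ (X * G + X ^ (0.499 : ℝ)) / G ^ 2 := hfin'
      _ ≤ (X * G + X) / G ^ 2 := div_le_div_of_nonneg_right (by linarith) (by positivity)
      _ = X / G + X / G ^ 2 := by field_simp
  have hlog0 : 0 < Real.log X := by linarith
  have h8 : X / G ≤ X / (κ * Real.log X) := div_le_div_of_nonneg_left hXpos.le (by positivity) hGlow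
  have h9 : X / G ^ 2 ≤ X / (κ ^ 2 * Real.log X) := by
    refine div_le_div_of_nonneg_left hXpos.le (by positivity) ?_
    calc κ ^ 2 * Real.log X ≤ κ ^ 2 * Real.log X ^ 2 := by
          have : Real.log X ≤ Real.log X ^ 2 := by nlinarith
          exact mul_le_mul_of_nonneg_left this (by positivity)
      _ = (κ * Real.log X) ^ 2 := by ring
      _ ≤ G ^ 2 := pow_le_pow_left₀ (by positivity) hGlow 2
  calc (S.card : ℝ) ≤ X / G + X / G ^ 2 := h7
    _ ≤ X / (κ * Real.log X) + X / (κ ^ 2 * Real.log X) := add_le_add h8 h9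
    _ = (1 / κ + 1 / κ ^ 2) * X / Real.log X := by field_simp

end Pool.Agent.helper71.AA
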